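import Pool.Agent.Helper83.JN.QT
import Pool.Agent.Helper83.SV.FinalEA
import Pool.Agent.Helper83.SV.Closure

/-!
# JN-2: finitely generated soluble-by-finite groups are finitely presented in the variety

If all finitely generated groups of the variety are Hopfian, `K` is a finitely generated group of
the variety and `K ⧸ U` is soluble-by-finite, then `U` is the normal closure of a finite set.
-/

namespace Pool.Agent.Helper83.JN

open Pool.Agent.Helper32.SmallVar Pool.Agent.Helper13.PV Pool.Agent.Helper83.SV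
open scoped commutatorElement Pointwise

variable {L : Set (FreeGroup ℕ)}

theorem elemSolByFinite_of_solByFin {G : Type} [Group G] (h : SolByFin G) : ElemSolByFinite G := by
  obtain ⟨S, h1, h2, h3⟩ := h
  exact ⟨S, h1, h2, elemSol_of_solvable h3⟩

theorem maxN_of_solByFin (hL : AllHopfian L) {G : Type} [Group G] (hG : Group.FG G)
    (hV : SatisfiesLaws L G) (h : SolByFin G) : MaxN G :=
  (final_fg hL hG hV (elemSolByFinite_of_solByFin h)).1

/-- `K` is relatively tame over a quotient that is soluble-by-finite. -/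
theorem qt_of_solByFin (hL : AllHopfian L) {K Λ : Type} [Group K] [Group Λ] (hK : Group.FG K)
    (π : K →* Λ) (hπ : Function.Surjective π) (h : SolByFin Λ) :
    QT L π (Set.univ : Set K) := by
  classical
  obtain ⟨S, hSn, hSf, hSs⟩ := h
  let P : Subgroup K := S.comap π
  have hPf : P.FiniteIndex := by
    refine ⟨?_⟩
    rw [Subgroup.index_comap_of_surjective _ hπ]
    exact hSf.index_ne_zero
  have hPfg : Group.FG P := Subgroup.fg_of_index_ne_zero P
  have hΛ : Group.FG Λ := by
    have := hK
    exact Group.fg_of_surjective hπ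
  have hSfg : Group.FG S := Subgroup.fg_of_index_ne_zero S
  let π' : P →* S := (π.comp P.subtype).codRestrict S fun p => p.2
  have hπ' : Function.Surjective π' := by
    rintro ⟨s, hs⟩
    obtain ⟨k, rfl⟩ := hπ s
    exact ⟨⟨k, hs⟩, rfl⟩
  have hE : EAs S := eas_of_elemSol (elemSol_of_solvable hSs) (MonoidHom.id S)
    Function.injective_id hSfg
  have h1 : QT L π (P : Set K) := by
    refine qt_sub π P π' ?_ (qt_of_eas hL hE hPfg π' hπ')
    intro p hp
    exact congrArg Subtype.val hp
  -- a finite transversal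
  have hfin : Finite (K ⧸ P) := Subgroup.finite_quotient_of_finiteIndex
  let T : Set K := Set.range (Quotient.out : K ⧸ P → K)
  have hT : T.Finite := Set.finite_range _
  have h2 : T * (P : Set K) = Set.univ := by
    rw [Set.eq_univ_iff_forall]
    intro g
    refine ⟨(Quotient.out (g : K ⧸ P)), ⟨_, rfl⟩, (Quotient.out (g : K ⧸ P))⁻¹ * g, ?_, by group⟩
    rw [SetLike.mem_coe, ← QuotientGroup.eq]
    exact Quotient.out_eq _
  rw [← h2]
  exact qt_mul π (qt_of_tame π (tame_finite hT)) h1

/-- Relative windows. -/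
theorem rel_win (hL : AllHopfian L) {K : Type} [Group K] (hK : Group.FG K)
    (hV : SatisfiesLaws L K) (R : Subgroup K) [R.Normal] (h : SolByFin (K ⧸ R)) :
    ∃ Z : Finset K, (Z : Set K) ⊆ R ∧ Win (K ⧸ Subgroup.normalClosure (Z : Set K)) := by
  classical
  obtain ⟨Z, hZ, E, -, hE⟩ := qt_of_solByFin hL hK (QuotientGroup.mk' R)
    (QuotientGroup.mk'_surjective R) h (Fin 2) WinB_w
  refine ⟨Z, ?_, ?_⟩
  · intro g hg
    have h1 := hZ g (Finset.mem_coe.1 hg)
    rwa [QuotientGroup.mk'_apply, QuotientGroup.eq_one_iff] at h1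
  · set N0 : Subgroup K := Subgroup.normalClosure (Z : Set K) with hN0
    refine ⟨E.image (QuotientGroup.mk' N0), ?_⟩
    intro N hN u b hu g
    obtain ⟨u, rfl⟩ := QuotientGroup.mk'_surjective N0 u
    obtain ⟨b, rfl⟩ := QuotientGroup.mk'_surjective N0 b
    obtain ⟨g, rfl⟩ := QuotientGroup.mk'_surjective N0 g
    let φ : K →* (K ⧸ N0) ⧸ N := (QuotientGroup.mk' N).comp (QuotientGroup.mk' N0)
    have hφs : Function.Surjective φ :=
      (QuotientGroup.mk'_surjective N).comp (QuotientGroup.mk'_surjective N0)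
    have h1 : SatisfiesLaws L ((K ⧸ N0) ⧸ N) := laws_of_surj φ hφs hV
    have hφ : ∀ z ∈ Z, φ z = 1 := by
      intro z hz
      have h2 : QuotientGroup.mk' N0 z = 1 := by
        rw [QuotientGroup.mk'_apply, QuotientGroup.eq_one_iff]
        exact Subgroup.subset_normalClosure hz
      change QuotientGroup.mk' N (QuotientGroup.mk' N0 z) = 1
      rw [h2, map_one]
    have hev : ∀ y : K, ev ![φ u, φ b] (φ y) WinB_w =
        QuotientGroup.mk' N ⁅QuotientGroup.mk' N0 u,
          QuotientGroup.mk' N0 y * QuotientGroup.mk' N0 b * (QuotientGroup.mk' N0 y)⁻¹⁆ := by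
      intro y
      rw [WinB_ev, map_commutatorElement]
      simp [φ]
    have h2 := hE _ h1 φ hφ ![φ u, φ b] (fun e he => by
      rw [hev]
      exact (QuotientGroup.eq_one_iff _).2 (hu _ (Finset.mem_image_of_mem _ he))) g
        (Set.mem_univ g)
    rw [hev] at h2
    exact (QuotientGroup.eq_one_iff _).1 h2

theorem fgn_lift {K : Type} [Group K] (N0 N : Subgroup K) [N0.Normal] (h0 : FGN N0)
    (hle : N0 ≤ N) (hN : N.Normal) (h : FGN (N.map (QuotientGroup.mk' N0))) : FGN N := by
  classical
  obtain ⟨s, hs⟩ := h0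
  obtain ⟨t, ht⟩ := h
  have hsurj := QuotientGroup.mk'_surjective N0
  have h1 : ∀ y : t, ∃ x ∈ N, QuotientGroup.mk' N0 x = y := by
    intro y
    have h2 : (y : K ⧸ N0) ∈ N.map (QuotientGroup.mk' N0) := by
      rw [← ht]
      exact Subgroup.subset_normalClosure y.2
    exact h2
  choose x hx hxy using h1
  refine ⟨s ∪ Finset.univ.image x, ?_⟩
  apply le_antisymm
  · apply Subgroup.normalClosure_le_normal
    intro g hg
    rw [Finset.mem_coe, Finset.mem_union] at hg
    rcases hg with hg | hg
    · apply hle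
      rw [← hs]
      exact Subgroup.subset_normalClosure hg
    · obtain ⟨y, -, rfl⟩ := Finset.mem_image.1 hg
      exact hx y
  · intro n hn
    set M : Subgroup K := Subgroup.normalClosure ((s ∪ Finset.univ.image x : Finset K) : Set K)
      with hM
    have h2 : Subgroup.normalClosure (t : Set (K ⧸ N0)) ≤ M.map (QuotientGroup.mk' N0) := by
      have : (M.map (QuotientGroup.mk' N0)).Normal :=
        Subgroup.Normal.map inferInstance _ hsurj
      apply Subgroup.normalClosure_le_normal
      intro y hy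
      refine ⟨x ⟨y, hy⟩, ?_, hxy _⟩
      apply Subgroup.subset_normalClosure
      rw [Finset.mem_coe]
      exact Finset.mem_union_right _ (Finset.mem_image_of_mem _ (Finset.mem_univ _))
    have h3 : QuotientGroup.mk' N0 n ∈ M.map (QuotientGroup.mk' N0) := by
      apply h2
      rw [ht]
      exact ⟨n, hn, rfl⟩
    obtain ⟨m, hm, hmn⟩ := h3
    have h4 : m⁻¹ * n ∈ N0 := by
      rw [← QuotientGroup.eq]
      exact hmn
    have h5 : N0 ≤ M := by
      rw [← hs]
      apply Subgroup.normalClosure_mono
      intro g hg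
      rw [Finset.mem_coe]
      exact Finset.mem_union_left _ hg
    have h6 := M.mul_mem hm (h5 h4)
    rwa [mul_inv_cancel_left] at h6

theorem fgn_comm (hL : AllHopfian L) {K : Type} [Group K] (hK : Group.FG K)
    (hV : SatisfiesLaws L K) (M : Subgroup K) [M.Normal] (hM : FGN M)
    (h : SolByFin (K ⧸ ⁅M, M⁆)) : FGN ⁅M, M⁆ := by
  obtain ⟨Z, hZ, hW⟩ := rel_win hL hK hV ⁅M, M⁆ h
  refine fgn_lift (Subgroup.normalClosure (Z : Set K)) _ ⟨Z, rfl⟩
    (Subgroup.normalClosure_le_normal hZ) inferInstance ?_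
  have h1 := hM.of_surj (QuotientGroup.mk' (Subgroup.normalClosure (Z : Set K)))
    (QuotientGroup.mk'_surjective _)
  have h2 := hW.commutator h1 h1
  rwa [← Subgroup.map_commutator] at h2

/-- The quotient by `N` is soluble-by-finite iff some term of the derived series of a normal
subgroup of finite index is contained in `N`. -/
theorem solByFin_quot_iff {G : Type} [Group G] (N : Subgroup G) [N.Normal] :
    SolByFin (G ⧸ N) ↔ SFmod N := by
  constructor
  · rintro ⟨S, hSn, hSf, hSs⟩
    obtain ⟨n, hn⟩ := (solvable_iff_ds S).1 hSs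
    have hsurj := QuotientGroup.mk'_surjective N
    refine ⟨S.comap (QuotientGroup.mk' N), inferInstance, ⟨?_⟩, n, ?_⟩
    · rw [Subgroup.index_comap_of_surjective _ hsurj]
      exact hSf.index_ne_zero
    · have h1 : (ds (S.comap (QuotientGroup.mk' N)) n).map (QuotientGroup.mk' N) = ⊥ := by
        rw [ds_map, Subgroup.map_comap_eq_self_of_surjective hsurj, hn]
      intro g hg
      have h2 : QuotientGroup.mk' N g ∈ (⊥ : Subgroup (G ⧸ N)) := by
        rw [← h1]
        exact ⟨g, hg, rfl⟩
      rwa [Subgroup.mem_bot, QuotientGroup.mk'_apply, QuotientGroup.eq_one_iff] at h2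
  · rintro ⟨S, hSn, hSf, n, hn⟩
    have hsurj := QuotientGroup.mk'_surjective N
    refine ⟨S.map (QuotientGroup.mk' N), hSn.map _ hsurj, ⟨?_⟩, ?_⟩
    · intro h0
      have h1 := Subgroup.index_map_dvd S hsurj
      rw [h0] at h1
      exact hSf.index_ne_zero (Nat.eq_zero_of_zero_dvd h1)
    · rw [solvable_iff_ds]
      refine ⟨n, ?_⟩
      rw [← ds_map, eq_bot_iff]
      rintro _ ⟨g, hg, rfl⟩
      rw [Subgroup.mem_bot, QuotientGroup.mk'_apply, QuotientGroup.eq_one_iff]
      exact hn hg

theorem fgn_of_fg {K : Type} [Group K] (N : Subgroup K) [hN : N.Normal] (h : N.FG) : FGN N := by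
  obtain ⟨s, hs⟩ := h
  refine ⟨s, le_antisymm ?_ ?_⟩
  · apply Subgroup.normalClosure_le_normal
    rw [← hs]
    exact Subgroup.subset_closure
  · rw [← hs]
    exact Subgroup.closure_le_normalClosure

/-- Finitely generated soluble-by-finite groups are finitely presented in the variety. -/
theorem fp (hL : AllHopfian L) {K : Type} [Group K] (hK : Group.FG K)
    (hV : SatisfiesLaws L K) (U : Subgroup K) [hU : U.Normal] (h : SolByFin (K ⧸ U)) : FGN U := by
  obtain ⟨S, hSn, hSf, n, hn⟩ := (solByFin_quot_iff U).1 h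
  have key : ∀ j, FGN (ds S j) := by
    intro j
    induction j with
    | zero =>
      have hfg : Group.FG S := Subgroup.fg_of_index_ne_zero S
      exact fgn_of_fg S ((Group.fg_iff_subgroup_fg _).1 hfg)
    | succ j ih =>
      have := ds_normal S hSn j
      have h2 : SolByFin (K ⧸ ⁅ds S j, ds S j⁆) :=
        (solByFin_quot_iff _).2 ⟨S, hSn, hSf, j + 1, le_rfl⟩
      exact fgn_comm hL hK hV (ds S j) ih h2
  have hnn := ds_normal S hSn n
  have h3 : SolByFin (K ⧸ ds S n) := (solByFin_quot_iff _).2 ⟨S, hSn, hSf, n, le_rfl⟩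
  have hfg : Group.FG (K ⧸ ds S n) := by
    have := hK
    exact Group.fg_of_surjective (QuotientGroup.mk'_surjective (ds S n))
  have h4 : MaxN (K ⧸ ds S n) := maxN_of_solByFin hL hfg
    (laws_of_surj (QuotientGroup.mk' (ds S n)) (QuotientGroup.mk'_surjective _) hV) h3
  exact fgn_lift (ds S n) U (key n) hn hU
    (h4 _ (hU.map _ (QuotientGroup.mk'_surjective _)))

end Pool.Agent.Helper83.JN
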