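import Pool.Agent.Helper83.JN.FP
import Mathlib.Order.Zorn

/-!
# JN-3: just non-(soluble-by-finite) quotients
-/

namespace Pool.Agent.Helper83.JN

open Pool.Agent.Helper32.SmallVar Pool.Agent.Helper13.PV Pool.Agent.Helper83.SV
open scoped commutatorElement Pointwise

variable {L : Set (FreeGroup ℕ)}

theorem sfmod_comap {G Q : Type} [Group G] [Group Q] (f : G →* Q) (hf : Function.Surjective f)
    (M : Subgroup Q) : SFmod (M.comap f) ↔ SFmod M := by
  constructor
  · rintro ⟨S, hSn, hSf, n, hn⟩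
    refine ⟨S.map f, hSn.map _ hf, ⟨?_⟩, n, ?_⟩
    · intro h0
      have h1 := Subgroup.index_map_dvd S hf
      rw [h0] at h1
      exact hSf.index_ne_zero (Nat.eq_zero_of_zero_dvd h1)
    · rw [← ds_map]
      exact Subgroup.map_le_iff_le_comap.2 hn
  · rintro ⟨S, hSn, hSf, n, hn⟩
    refine ⟨S.comap f, inferInstance, ⟨?_⟩, n, ?_⟩
    · rw [Subgroup.index_comap_of_surjective _ hf]
      exact hSf.index_ne_zero
    · rw [← Subgroup.map_le_iff_le_comap, ds_map, Subgroup.map_comap_eq_self_of_surjective hf]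
      exact hn

theorem solByFin_iff_sfmod {G : Type} [Group G] : SolByFin G ↔ SFmod (⊥ : Subgroup G) := by
  constructor
  · rintro ⟨S, h1, h2, h3⟩
    obtain ⟨n, hn⟩ := (solvable_iff_ds S).1 h3
    exact ⟨S, h1, h2, n, hn.le⟩
  · rintro ⟨S, h1, h2, n, hn⟩
    exact ⟨S, h1, h2, (solvable_iff_ds S).2 ⟨n, le_bot_iff.1 hn⟩⟩

theorem sfmod_mono {G : Type} [Group G] {N N' : Subgroup G} (h : N ≤ N') (hN : SFmod N) :
    SFmod N' := by
  obtain ⟨S, h1, h2, n, hn⟩ := hN
  exact ⟨S, h1, h2, n, hn.trans h⟩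

theorem ds_anti {G : Type} [Group G] (S : Subgroup G) {m n : ℕ} (h : m ≤ n) :
    ds S n ≤ ds S m := by
  induction n, h using Nat.le_induction with
  | base => exact le_rfl
  | succ n _ ih =>
    refine le_trans ?_ ih
    exact Subgroup.commutator_le_self (ds S n)

theorem sfmod_inf {G : Type} [Group G] {N N' : Subgroup G} (hN : SFmod N) (hN' : SFmod N') :
    SFmod (N ⊓ N') := by
  obtain ⟨S, h1, h2, n, hn⟩ := hN
  obtain ⟨S', h1', h2', n', hn'⟩ := hN'
  refine ⟨S ⊓ S', inferInstance, inferInstance, max n n', le_inf ?_ ?_⟩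
  · exact (ds_mono inf_le_left _).trans ((ds_anti S (le_max_left _ _)).trans hn)
  · exact (ds_mono inf_le_right _).trans ((ds_anti S' (le_max_right _ _)).trans hn')

theorem sfmod_of_index {G : Type} [Group G] (N : Subgroup G) [N.FiniteIndex] : SFmod N :=
  ⟨N.normalCore, inferInstance, inferInstance, 0, N.normalCore_le⟩

/-- `J` is not soluble-by-finite, but all its proper quotients are. -/
structure JNp (J : Type) [Group J] : Prop where
  bot : ¬ SFmod (⊥ : Subgroup J)
  quot : ∀ N : Subgroup J, N.Normal → N ≠ ⊥ → SFmod N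

namespace JNp

variable {J : Type} [Group J]

theorem ne_bot (h : JNp J) (N : Subgroup J) [N.FiniteIndex] : N ≠ ⊥ := by
  rintro rfl
  exact h.bot (sfmod_of_index _)

theorem abelian (h : JNp J) (A : Subgroup J) (hA : A.Normal)
    (hc : ∀ a ∈ A, ∀ b ∈ A, a * b = b * a) : A = ⊥ := by
  by_contra hne
  obtain ⟨S, h1, h2, n, hn⟩ := h.quot A hA hne
  refine h.bot ⟨S, h1, h2, n + 1, ?_⟩
  change ⁅ds S n, ds S n⁆ ≤ ⊥
  rw [Subgroup.commutator_le]
  intro a ha b hb
  rw [Subgroup.mem_bot, commutatorElement_eq_one_iff_mul_comm]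
  exact hc a (hn ha) b (hn hb)

theorem inf (h : JNp J) (N N' : Subgroup J) (hN : N.Normal) (hN' : N'.Normal) (h1 : N ≠ ⊥)
    (h2 : N' ≠ ⊥) : N ⊓ N' ≠ ⊥ := by
  intro h3
  apply h.bot
  rw [← h3]
  exact sfmod_inf (h.quot N hN h1) (h.quot N' hN' h2)

theorem cent (h : JNp J) (N : Subgroup J) (hN : N.Normal) (h1 : N ≠ ⊥) :
    Subgroup.centralizer (N : Set J) = ⊥ := by
  by_contra hne
  have hn : (Subgroup.centralizer (N : Set J)).Normal := inferInstance
  refine h.inf N (Subgroup.centralizer (N : Set J)) hN hn h1 hne ?_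
  refine h.abelian _ inferInstance ?_
  intro a ha b hb
  exact (Subgroup.mem_centralizer_iff.1 hb.2) a ha.1

theorem cent_fin (h : JNp J) (H : Subgroup J) [H.FiniteIndex] (x : J)
    (hx : ∀ y ∈ H, y * x = x * y) : x = 1 := by
  have h1 : x ∈ Subgroup.centralizer (H.normalCore : Set J) := by
    rw [Subgroup.mem_centralizer_iff]
    intro y hy
    exact hx y (H.normalCore_le hy)
  rw [h.cent H.normalCore inferInstance (h.ne_bot _)] at h1
  exact Subgroup.mem_bot.1 h1

theorem elemSol (h : JNp J) (hL : AllHopfian L) (hG : Group.FG J) (hV : SatisfiesLaws L J)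
    (A : Subgroup J) [hA : A.Normal] (hes : ElemSol A) : A = ⊥ := by
  by_contra hne
  have h1 : SolByFin (J ⧸ A) := (solByFin_quot_iff A).2 (h.quot A hA hne)
  have h2 := es_ext A hes (elemSolByFinite_of_solByFin h1)
  exact h.bot (solByFin_iff_sfmod.1 (final_fg hL hG hV h2).2)

theorem maxN (h : JNp J) (hL : AllHopfian L) (hG : Group.FG J) (hV : SatisfiesLaws L J) :
    MaxN J := by
  intro N hN
  by_cases hne : N = ⊥
  · rw [hne]
    exact ⟨∅, by simp⟩
  · exact fp hL hG hV N ((solByFin_quot_iff N).2 (h.quot N hN hne))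

end JNp

/-- A finitely generated group of the variety that is not soluble-by-finite has a just
non-(soluble-by-finite) quotient. -/
theorem exists_jn (hL : AllHopfian L) {G : Type} [Group G] (hG : Group.FG G)
    (hV : SatisfiesLaws L G) (h : ¬ SolByFin G) :
    ∃ N : Subgroup G, ∃ _ : N.Normal, JNp (G ⧸ N) := by
  have hz := zorn_le_nonempty₀ {N : Subgroup G | N.Normal ∧ ¬ SFmod N} ?_ ⊥
    ⟨inferInstance, fun h1 => h (solByFin_iff_sfmod.2 h1)⟩
  · obtain ⟨N, -, hN⟩ := hz
    have hNn : N.Normal := hN.prop.1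
    refine ⟨N, hNn, ?_, ?_⟩
    · rw [← sfmod_comap (QuotientGroup.mk' N) (QuotientGroup.mk'_surjective N)]
      have h1 : (⊥ : Subgroup (G ⧸ N)).comap (QuotientGroup.mk' N) = N := by
        rw [MonoidHom.comap_bot, QuotientGroup.ker_mk']
      rw [h1]
      exact hN.prop.2
    · intro M hM hne
      rw [← sfmod_comap (QuotientGroup.mk' N) (QuotientGroup.mk'_surjective N)]
      by_contra hcon
      have h1 : N ≤ M.comap (QuotientGroup.mk' N) := by
        intro x hx
        rw [Subgroup.mem_comap, QuotientGroup.mk'_apply, (QuotientGroup.eq_one_iff x).2 hx]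
        exact M.one_mem
      have h0 : (M.comap (QuotientGroup.mk' N)).Normal ∧
          ¬ SFmod (M.comap (QuotientGroup.mk' N)) := ⟨hM.comap _, hcon⟩
      have h2 : M.comap (QuotientGroup.mk' N) ≤ N := hN.le_of_ge h0 h1
      apply hne
      rw [eq_bot_iff]
      intro y hy
      obtain ⟨x, rfl⟩ := QuotientGroup.mk'_surjective N y
      rw [Subgroup.mem_bot, QuotientGroup.mk'_apply, QuotientGroup.eq_one_iff]
      exact h2 hy
  · intro c hc hch y hy
    have hdir : DirectedOn (· ≤ ·) c := hch.directedOn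
    have hmem : ∀ x, x ∈ sSup c ↔ ∃ N ∈ c, x ∈ N := fun x =>
      Subgroup.mem_sSup_of_directedOn ⟨y, hy⟩ hdir
    have hn : (sSup c).Normal := by
      refine ⟨fun x hx g => ?_⟩
      obtain ⟨N, hN, hxN⟩ := (hmem x).1 hx
      exact (hmem _).2 ⟨N, hN, (hc hN).1.conj_mem x hxN g⟩
    refine ⟨sSup c, ⟨hn, ?_⟩, fun z hz => le_sSup hz⟩
    intro hP
    obtain ⟨s, hs⟩ := fp hL hG hV (sSup c) ((solByFin_quot_iff _).2 hP)
    have h1 : ∀ t : Finset G, (t : Set G) ⊆ ((sSup c : Subgroup G) : Set G) →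
        ∃ N ∈ c, (t : Set G) ⊆ N := by
      classical
      intro t
      induction t using Finset.induction_on with
      | empty => exact fun _ => ⟨y, hy, by simp⟩
      | insert a t _ ih =>
        intro ht
        rw [Finset.coe_insert, Set.insert_subset_iff] at ht
        obtain ⟨N, hN, htN⟩ := ih ht.2
        obtain ⟨N', hN', haN⟩ := (hmem a).1 ht.1
        obtain ⟨P, hP, h1, h2⟩ := hdir N hN N' hN'
        refine ⟨P, hP, ?_⟩
        rw [Finset.coe_insert, Set.insert_subset_iff]
        exact ⟨h2 haN, htN.trans h1⟩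
    obtain ⟨N, hN, hsN⟩ := h1 s (by
      rw [← hs]
      exact Subgroup.subset_normalClosure)
    have h2 : sSup c ≤ N := by
      rw [← hs]
      have := (hc hN).1
      exact Subgroup.normalClosure_le_normal hsN
    exact (hc hN).2 (sfmod_mono h2 hP)

end Pool.Agent.Helper83.JN
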