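import Pool.Agent.Helper83.JN.Just1

/-!
# JN-4: basal subgroups
-/

namespace Pool.Agent.Helper83.JN

open Pool.Agent.Helper32.SmallVar Pool.Agent.Helper13.PV Pool.Agent.Helper83.SV
open scoped commutatorElement Pointwise

variable {L : Set (FreeGroup ℕ)}

section cj

variable {J : Type} [Group J]

/-- The conjugate `g B g⁻¹`. -/
def cj (g : J) (B : Subgroup J) : Subgroup J := B.comap (MulAut.conj g⁻¹).toMonoidHom

theorem mem_cj {g x : J} {B : Subgroup J} : x ∈ cj g B ↔ g⁻¹ * x * g ∈ B := by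
  simp [cj]

theorem conj_mem_cj {g x : J} {B : Subgroup J} (hx : x ∈ B) : g * x * g⁻¹ ∈ cj g B := by
  rw [mem_cj]
  have h1 : g⁻¹ * (g * x * g⁻¹) * g = x := by group
  rwa [h1]

theorem cj_one (B : Subgroup J) : cj 1 B = B := by
  ext x
  rw [mem_cj]
  simp

theorem cj_mul (g h : J) (B : Subgroup J) : cj (g * h) B = cj g (cj h B) := by
  ext x
  rw [mem_cj, mem_cj, mem_cj]
  have h1 : (g * h)⁻¹ * x * (g * h) = h⁻¹ * (g⁻¹ * x * g) * h := by group
  rw [h1]

theorem cj_mono (g : J) {A B : Subgroup J} (h : A ≤ B) : cj g A ≤ cj g B := by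
  intro x hx
  rw [mem_cj] at hx ⊢
  exact h hx

theorem cj_inf (g : J) (A B : Subgroup J) : cj g (A ⊓ B) = cj g A ⊓ cj g B := by
  ext x
  rw [Subgroup.mem_inf, mem_cj, mem_cj, mem_cj, Subgroup.mem_inf]

theorem cj_bot (g : J) : cj g (⊥ : Subgroup J) = ⊥ := by
  ext x
  rw [mem_cj, Subgroup.mem_bot, Subgroup.mem_bot]
  constructor
  · intro h
    have h1 : x = g * (g⁻¹ * x * g) * g⁻¹ := by group
    rw [h1, h]
    group
  · rintro rfl
    group

theorem cj_inv_cj (g : J) (B : Subgroup J) : cj g⁻¹ (cj g B) = B := by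
  rw [← cj_mul, inv_mul_cancel, cj_one]

theorem cj_cj_inv (g : J) (B : Subgroup J) : cj g (cj g⁻¹ B) = B := by
  rw [← cj_mul, mul_inv_cancel, cj_one]

theorem cj_ne_bot (g : J) {B : Subgroup J} (h : B ≠ ⊥) : cj g B ≠ ⊥ := by
  intro h1
  apply h
  rw [← cj_inv_cj g B, h1, cj_bot]

theorem cj_normal (g : J) (N : Subgroup J) (hN : N.Normal) : cj g N = N := by
  ext x
  rw [mem_cj]
  constructor
  · intro h
    have h1 := hN.conj_mem _ h g
    have h2 : g * (g⁻¹ * x * g) * g⁻¹ = x := by group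
    rwa [h2] at h1
  · intro h
    have h1 := hN.conj_mem _ h g⁻¹
    rwa [inv_inv] at h1

/-- The normalizer. -/
def nz (B : Subgroup J) : Subgroup J where
  carrier := {g | cj g B = B}
  mul_mem' := by
    intro a b ha hb
    change cj (a * b) B = B
    rw [cj_mul, show cj b B = B from hb, show cj a B = B from ha]
  one_mem' := cj_one B
  inv_mem' := by
    intro a ha
    change cj a⁻¹ B = B
    conv_lhs => rw [← (show cj a B = B from ha)]
    exact cj_inv_cj a B

theorem mem_nz {g : J} {B : Subgroup J} : g ∈ nz B ↔ cj g B = B := Iff.rfl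

theorem conj_mem_of_nz {g x : J} {B : Subgroup J} (hg : g ∈ nz B) (hx : x ∈ B) :
    g * x * g⁻¹ ∈ B := by
  have h1 := conj_mem_cj (g := g) hx
  rwa [mem_nz.1 hg] at h1

theorem conj_mem_of_nz' {g x : J} {B : Subgroup J} (hg : g ∈ nz B) (hx : x ∈ B) :
    g⁻¹ * x * g ∈ B := by
  have h1 := conj_mem_of_nz (Subgroup.inv_mem _ hg) hx
  rwa [inv_inv] at h1

theorem mem_nz_of {g : J} {B : Subgroup J} (h1 : ∀ x ∈ B, g * x * g⁻¹ ∈ B)
    (h2 : ∀ x ∈ B, g⁻¹ * x * g ∈ B) : g ∈ nz B := by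
  rw [mem_nz]
  ext x
  rw [mem_cj]
  constructor
  · intro h
    have h3 := h1 _ h
    have h4 : g * (g⁻¹ * x * g) * g⁻¹ = x := by group
    rwa [h4] at h3
  · exact h2 x

theorem le_nz (B : Subgroup J) : B ≤ nz B := fun g hg =>
  mem_nz_of (fun _ hx => B.mul_mem (B.mul_mem hg hx) (B.inv_mem hg))
    (fun _ hx => B.mul_mem (B.mul_mem (B.inv_mem hg) hx) hg)

theorem nz_of_normal (B : Subgroup J) (hB : B.Normal) : nz B = ⊤ := by
  rw [eq_top_iff]
  intro g _
  exact cj_normal g B hB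

theorem normal_of_nz (B : Subgroup J) (h : ∀ g, cj g B = B) : B.Normal :=
  ⟨fun _ hx g => conj_mem_of_nz (h g) hx⟩

theorem nz_inf (A B : Subgroup J) : nz A ⊓ nz B ≤ nz (A ⊓ B) := by
  intro g hg
  rw [mem_nz, cj_inf, mem_nz.1 hg.1, mem_nz.1 hg.2]

theorem nz_cj (g : J) (B : Subgroup J) {H : Subgroup J} (hH : H.Normal) (h : H ≤ nz B) :
    H ≤ nz (cj g B) := by
  intro x hx
  have h1 : g⁻¹ * x * g ∈ H := by
    have := hH.conj_mem x hx g⁻¹
    rwa [inv_inv] at this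
  rw [mem_nz, ← cj_mul]
  have h2 : x * g = g * (g⁻¹ * x * g) := by group
  rw [h2, cj_mul, mem_nz.1 (h h1)]

theorem sfmod_cj (g : J) {B : Subgroup J} (h : SFmod (cj g B)) : SFmod B := by
  obtain ⟨S, h1, h2, n, hn⟩ := h
  refine ⟨S, h1, h2, n, ?_⟩
  have h3 := cj_mono g⁻¹ hn
  rw [cj_inv_cj, cj_normal _ _ (ds_normal S h1 n)] at h3
  exact h3

/-- Commutation of two subgroups normalizing each other with trivial intersection. -/
theorem comm_of_inf {A B : Subgroup J} (hA : A ≤ nz B) (hB : B ≤ nz A) (h : A ⊓ B = ⊥) :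
    ∀ a ∈ A, ∀ b ∈ B, a * b = b * a := by
  intro a ha b hb
  have h1 : a * b * a⁻¹ * b⁻¹ ∈ A ⊓ B := by
    constructor
    · have h2 : a * b * a⁻¹ * b⁻¹ = a * (b * a⁻¹ * b⁻¹) := by group
      rw [h2]
      exact A.mul_mem ha (conj_mem_of_nz (hB hb) (A.inv_mem ha))
    · exact B.mul_mem (conj_mem_of_nz (hA ha) hb) (B.inv_mem hb)
  rw [h, Subgroup.mem_bot] at h1
  calc a * b = (a * b * a⁻¹ * b⁻¹) * b * a := by group
    _ = b * a := by rw [h1]; group

end cj

/-- Basal subgroups: non-normal subgroups whose conjugates are equal or meet trivially, with a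
normalizer of finite index; distinct conjugates normalize each other. -/
structure Basal {J : Type} [Group J] (B : Subgroup J) : Prop where
  ne : B ≠ ⊥
  fin : (nz B).FiniteIndex
  nn : ∀ g, B ≤ nz (cj g B)
  dich : ∀ g, cj g B = B ∨ cj g B ⊓ B = ⊥
  not_normal : ∃ g, cj g B ≠ B

namespace Basal

variable {J : Type} [Group J] {B : Subgroup J}

theorem comm (h : Basal B) {g : J} (hg : cj g B ≠ B) :
    ∀ a ∈ cj g B, ∀ b ∈ B, a * b = b * a := by
  refine comm_of_inf ?_ (h.nn g) ((h.dich g).resolve_left hg)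
  have h1 := cj_mono g (h.nn g⁻¹)
  intro x hx
  have h2 := h1 hx
  rw [mem_cj, mem_nz] at h2
  have h3 := congrArg (cj g) h2
  rw [← cj_mul, ← cj_mul, ← cj_mul] at h3
  have h4 : g * (g⁻¹ * x * g) * g⁻¹ = x := by group
  have h5 : g * g⁻¹ = 1 := by group
  rw [h4, h5, cj_one] at h3
  exact h3

end Basal

end Pool.Agent.Helper83.JN
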