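import Pool.Agent.Helper83.JN.Just2
import Pool.Agent.Helper83.SV.Shift
import Pool.Agent.Helper83.SV.Core5a

/-!
# JN-5: existence and properties of basal subgroups
-/

namespace Pool.Agent.Helper83.JN

open Pool.Agent.Helper32.SmallVar Pool.Agent.Helper13.PV Pool.Agent.Helper83.SV
open scoped commutatorElement Pointwise

variable {L : Set (FreeGroup ℕ)}

theorem closure_comm {J : Type} [Group J] {S : Set J} (h : ∀ a ∈ S, ∀ b ∈ S, a * b = b * a) :
    ∀ a ∈ Subgroup.closure S, ∀ b ∈ Subgroup.closure S, a * b = b * a := by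
  have h1 : Subgroup.closure S ≤ Subgroup.centralizer S := by
    rw [Subgroup.closure_le]
    intro a ha
    rw [SetLike.mem_coe, Subgroup.mem_centralizer_iff]
    intro b hb
    exact h b hb a ha
  have h2 : Subgroup.closure S ≤ Subgroup.centralizer (Subgroup.closure S : Set J) := by
    rw [Subgroup.closure_le]
    intro a ha
    rw [SetLike.mem_coe, Subgroup.mem_centralizer_iff]
    intro b hb
    exact ((Subgroup.mem_centralizer_iff.1 (h1 hb)) a ha).symm
  intro a ha b hb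
  exact ((Subgroup.mem_centralizer_iff.1 (h2 ha)) b hb).symm

/-- The normal closure of a subgroup is generated by its conjugates. -/
theorem ncl_le {J : Type} [Group J] (A P : Subgroup J) (h : ∀ g, cj g A ≤ P) :
    Subgroup.normalClosure (A : Set J) ≤ P := by
  rw [Subgroup.normalClosure, Subgroup.closure_le]
  intro x hx
  obtain ⟨a, ha, hc⟩ := Group.mem_conjugatesOfSet_iff.1 hx
  obtain ⟨c, rfl⟩ := isConj_iff.1 hc
  exact h c (conj_mem_cj ha)

namespace Basal

variable {J : Type} [Group J] {B : Subgroup J}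

theorem abelian (h : Basal B) (hJ : JNp J) (A : Subgroup J) (hAB : A ≤ B) (hn : nz B ≤ nz A)
    (hc : ∀ a ∈ A, ∀ b ∈ A, a * b = b * a) : A = ⊥ := by
  have key : ∀ g : J, ∀ a ∈ A, ∀ b ∈ cj g A, b * a = a * b := by
    intro g a ha b hb
    by_cases hg : cj g B = B
    · have h1 : cj g A = A := hn hg
      rw [h1] at hb
      exact hc b hb a ha
    · exact h.comm hg b (cj_mono g hAB hb) a (hAB ha)
  have h1 : ∀ x ∈ Group.conjugatesOfSet (A : Set J), ∀ y ∈ Group.conjugatesOfSet (A : Set J),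
      x * y = y * x := by
    intro x hx y hy
    obtain ⟨a, ha, hxa⟩ := Group.mem_conjugatesOfSet_iff.1 hx
    obtain ⟨c, rfl⟩ := isConj_iff.1 hxa
    obtain ⟨b, hb, hyb⟩ := Group.mem_conjugatesOfSet_iff.1 hy
    obtain ⟨d, rfl⟩ := isConj_iff.1 hyb
    have h2 := key (c⁻¹ * d) a ha ((c⁻¹ * d) * b * (c⁻¹ * d)⁻¹) (conj_mem_cj hb)
    have h3 : (c * a * c⁻¹) * (d * b * d⁻¹) =
        c * (a * ((c⁻¹ * d) * b * (c⁻¹ * d)⁻¹)) * c⁻¹ := by group
    have h4 : (d * b * d⁻¹) * (c * a * c⁻¹) =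
        c * (((c⁻¹ * d) * b * (c⁻¹ * d)⁻¹) * a) * c⁻¹ := by group
    rw [h3, h4, h2]
  have h5 : Subgroup.normalClosure (A : Set J) = ⊥ :=
    hJ.abelian _ inferInstance (closure_comm h1)
  rw [eq_bot_iff, ← h5]
  exact Subgroup.le_normalClosure

theorem not_abelian (h : Basal B) (hJ : JNp J) : ¬ ∀ a ∈ B, ∀ b ∈ B, a * b = b * a :=
  fun hc => h.ne (h.abelian hJ B le_rfl le_rfl hc)

/-- The centralizer of `B` meets `B` trivially. -/
theorem cent_inf (h : Basal B) (hJ : JNp J) : B ⊓ Subgroup.centralizer (B : Set J) = ⊥ := by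
  refine h.abelian hJ _ inf_le_left ?_ ?_
  · intro g hg
    apply mem_nz_of
    · intro x hx
      refine ⟨conj_mem_of_nz hg hx.1, Subgroup.mem_centralizer_iff.2 ?_⟩
      intro b hb
      have h1 := (Subgroup.mem_centralizer_iff.1 hx.2) _ (conj_mem_of_nz' hg hb)
      calc b * (g * x * g⁻¹) = g * ((g⁻¹ * b * g) * x) * g⁻¹ := by group
        _ = g * (x * (g⁻¹ * b * g)) * g⁻¹ := by rw [h1]
        _ = g * x * g⁻¹ * b := by group
    · intro x hx
      refine ⟨conj_mem_of_nz' hg hx.1, Subgroup.mem_centralizer_iff.2 ?_⟩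
      intro b hb
      have h1 := (Subgroup.mem_centralizer_iff.1 hx.2) _ (conj_mem_of_nz hg hb)
      calc b * (g⁻¹ * x * g) = g⁻¹ * ((g * b * g⁻¹) * x) * g := by group
        _ = g⁻¹ * (x * (g * b * g⁻¹)) * g := by rw [h1]
        _ = g⁻¹ * x * g * b := by group
  · intro a ha b hb
    exact (Subgroup.mem_centralizer_iff.1 hb.2) a ha.1

theorem exp_mem {D : List Tm} (hId : HasId D J) (h : Basal B) (hJ : JNp J)
    (x : J) : x ^ ((D.map fun t => t.2.1).prod) ∈ nz B := by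
  by_contra hcon
  have h1 : ∀ t ∈ D, cj (x ^ t.2.1) B ≠ B := by
    intro t ht h2
    apply hcon
    have h3 : t.2.1 ∣ (D.map fun t => t.2.1).prod :=
      List.dvd_prod (List.mem_map.2 ⟨t, ht, rfl⟩)
    obtain ⟨k, hk⟩ := h3
    rw [hk, pow_mul]
    exact Subgroup.pow_mem _ (mem_nz.2 h2) k
  apply h.not_abelian hJ
  intro b hb u hu
  rw [← commutatorElement_eq_one_iff_mul_comm, hId b x u]
  have h2 : ∀ t ∈ D, tv b x u t = 1 := by
    intro t ht
    have h3 := h.comm (h1 t ht) _ (conj_mem_cj (g := x ^ t.2.1) hb) u hu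
    rw [← commutatorElement_eq_one_iff_mul_comm] at h3
    rw [tv, h3]
    split_ifs <;> simp
  have h3 : D.map (tv b x u) = D.map fun _ => (1 : J) := List.map_congr_left h2
  rw [h3]
  simp

end Basal

/-- Existence of basal subgroups. -/
theorem exists_basal {J : Type} [Group J] (h : JNp J) (N : Subgroup J) (hN : N ≠ ⊥)
    (hf : (nz N).FiniteIndex) (hs : ¬ SFmod N) : ∃ B : Subgroup J, Basal B := by
  set H0 : Subgroup J := (nz N).normalCore with hH0
  have hH0n : H0.Normal := inferInstance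
  have hH0f : H0.FiniteIndex := inferInstance
  have hH0le : H0 ≤ nz N := Subgroup.normalCore_le _
  set N1 : Subgroup J := N ⊓ H0 with hN1
  have hN1ne : N1 ≠ ⊥ := by
    intro h1
    apply hN
    rw [eq_bot_iff]
    intro n hn
    rw [Subgroup.mem_bot]
    apply h.cent_fin H0
    intro y hy
    have h2 := comm_of_inf (A := N) (B := H0)
      (by rw [nz_of_normal H0 hH0n]; exact le_top) hH0le h1 n hn y hy
    exact h2.symm
  have hH0N1 : H0 ≤ nz N1 := by
    refine le_trans (le_inf hH0le ?_) (nz_inf N H0)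
    rw [nz_of_normal H0 hH0n]
    exact le_top
  have hnot : ¬ SFmod N1 := fun h1 => hs (sfmod_mono inf_le_left h1)
  set 𝒞 : Set (Subgroup J) := Set.range fun g : J => cj g N1 with h𝒞
  have hCfin : 𝒞.Finite := by
    have hfi : (nz N1).FiniteIndex := Subgroup.finiteIndex_of_le hH0N1
    have hq : Finite (J ⧸ nz N1) := Subgroup.finite_quotient_of_finiteIndex
    refine (Set.finite_range fun q : J ⧸ nz N1 => cj q.out N1).subset ?_
    rintro _ ⟨g, rfl⟩
    refine ⟨(g : J ⧸ nz N1), ?_⟩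
    have h1 : (g : J ⧸ nz N1).out⁻¹ * g ∈ nz N1 := by
      rw [← QuotientGroup.eq]
      exact Quotient.out_eq _
    have h2 : g = (g : J ⧸ nz N1).out * ((g : J ⧸ nz N1).out⁻¹ * g) := by group
    change cj (g : J ⧸ nz N1).out N1 = cj g N1
    conv_rhs => rw [h2]
    rw [cj_mul, mem_nz.1 h1]
  have hCle : ∀ K ∈ 𝒞, K ≤ H0 := by
    rintro _ ⟨g, rfl⟩
    have h1 := cj_mono g (inf_le_right : N1 ≤ H0)
    rwa [cj_normal g H0 hH0n] at h1
  have hCnz : ∀ K ∈ 𝒞, H0 ≤ nz K := by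
    rintro _ ⟨g, rfl⟩
    exact nz_cj g N1 hH0n hH0N1
  have hCcj : ∀ g : J, ∀ K ∈ 𝒞, cj g K ∈ 𝒞 := by
    rintro g _ ⟨k, rfl⟩
    exact ⟨g * k, cj_mul g k N1⟩
  have hCs : ∀ K ∈ 𝒞, ¬ SFmod K := by
    rintro _ ⟨g, rfl⟩ h1
    exact hnot (sfmod_cj g h1)
  -- the nontrivial intersections of conjugates
  set 𝒮 : Set (Subgroup J) := {B | B ≠ ⊥ ∧ ∃ F ⊆ 𝒞, F.Nonempty ∧ B = sInf F} with h𝒮
  have hSfin : 𝒮.Finite := by
    refine (hCfin.powerset.image sInf).subset ?_
    rintro B ⟨-, F, hF, -, rfl⟩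
    exact ⟨F, hF, rfl⟩
  have hSne : 𝒮.Nonempty := by
    refine ⟨N1, hN1ne, {N1}, ?_, ⟨N1, rfl⟩, by simp⟩
    rintro _ rfl
    exact ⟨1, cj_one N1⟩
  obtain ⟨B, hB⟩ := hSfin.exists_minimal hSne
  obtain ⟨hBne, F, hF, ⟨K0, hK0⟩, hBF⟩ := hB.prop
  have hcjs : ∀ g : J, ∀ F : Set (Subgroup J), cj g (sInf F) = sInf (cj g '' F) := by
    intro g F
    ext x
    rw [mem_cj, Subgroup.mem_sInf, Subgroup.mem_sInf]
    constructor
    · rintro h1 _ ⟨K, hK, rfl⟩
      rw [mem_cj]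
      exact h1 K hK
    · intro h1 K hK
      exact mem_cj.1 (h1 _ ⟨K, hK, rfl⟩)
  have hBH0 : B ≤ H0 := by
    rw [hBF]
    exact (sInf_le hK0).trans (hCle K0 (hF hK0))
  have hH0B : H0 ≤ nz B := by
    intro x hx
    rw [mem_nz, hBF, hcjs]
    congr 1
    ext K
    constructor
    · rintro ⟨K', hK', rfl⟩
      have h1 := mem_nz.1 (hCnz K' (hF hK') hx)
      rw [h1]
      exact hK'
    · intro hK
      exact ⟨K, hK, mem_nz.1 (hCnz K (hF hK) hx)⟩
  have hmin : ∀ g : J, cj g B ⊓ B ≠ ⊥ → B ≤ cj g B := by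
    intro g hg
    have h1 : cj g B ⊓ B ∈ 𝒮 := by
      refine ⟨hg, cj g '' F ∪ F, ?_, ⟨K0, Or.inr hK0⟩, ?_⟩
      · rintro _ (⟨K, hK, rfl⟩ | hK)
        · exact hCcj g K (hF hK)
        · exact hF hK
      · rw [sInf_union, ← hcjs, ← hBF]
    exact (hB.le_of_le h1 inf_le_right).trans inf_le_left
  refine ⟨B, hBne, Subgroup.finiteIndex_of_le hH0B, ?_, ?_, ?_⟩
  · intro g
    exact hBH0.trans (nz_cj g B hH0n hH0B)
  · intro g
    by_cases hg : cj g B ⊓ B = ⊥
    · exact Or.inr hg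
    · left
      refine le_antisymm ?_ (hmin g hg)
      have h1 : cj g⁻¹ B ⊓ B ≠ ⊥ := by
        intro h2
        apply hg
        have h3 := congrArg (cj g) h2
        rw [cj_inf, cj_cj_inv, cj_bot, inf_comm] at h3
        exact h3
      have h2 := cj_mono g (hmin g⁻¹ h1)
      rwa [cj_cj_inv] at h2
  · by_contra hcon
    push Not at hcon
    have h1 := h.quot B (normal_of_nz B hcon) hBne
    refine hCs K0 (hF hK0) (sfmod_mono ?_ h1)
    rw [hBF]
    exact sInf_le hK0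

end Pool.Agent.Helper83.JN
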