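import Pool.Agent.Helper83.JN.Just3

/-!
# JN-6: hereditarily just non-(soluble-by-finite) sections
-/

namespace Pool.Agent.Helper83.JN

open Pool.Agent.Helper32.SmallVar Pool.Agent.Helper13.PV Pool.Agent.Helper83.SV
open scoped commutatorElement Pointwise

variable {L : Set (FreeGroup ℕ)}

/-- Every nontrivial subgroup with a normalizer of finite index has the property `SFmod`. -/
def Her (J : Type) [Group J] : Prop :=
  ∀ N : Subgroup J, N ≠ ⊥ → (nz N).FiniteIndex → SFmod N

/-- From a subgroup of finite index to the group. -/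
theorem sfmod_up {J : Type} [Group J] (K N : Subgroup J) [K.FiniteIndex]
    (h : SFmod (N.subgroupOf K)) : SFmod N := by
  obtain ⟨S, hSn, hSf, n, hn⟩ := h
  have h1 : (S.map K.subtype).FiniteIndex := by
    refine ⟨?_⟩
    rw [Subgroup.index_map_subtype]
    exact mul_ne_zero hSf.index_ne_zero Subgroup.FiniteIndex.index_ne_zero
  refine ⟨(S.map K.subtype).normalCore, inferInstance, inferInstance, n, ?_⟩
  refine (ds_mono (Subgroup.normalCore_le _) n).trans ?_
  rw [← ds_map]
  rintro _ ⟨x, hx, rfl⟩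
  exact Subgroup.mem_subgroupOf.1 (hn hx)

/-- From the group to a subgroup. -/
theorem sfmod_down {J : Type} [Group J] (K : Subgroup J) (M : Subgroup K)
    (h : SFmod (M.map K.subtype)) : SFmod M := by
  obtain ⟨S, hSn, hSf, n, hn⟩ := h
  refine ⟨S.subgroupOf K, inferInstance, inferInstance, n, ?_⟩
  intro x hx
  have h1 : (x : J) ∈ (ds (S.subgroupOf K) n).map K.subtype := ⟨x, hx, rfl⟩
  rw [ds_map] at h1
  have h2 : (S.subgroupOf K).map K.subtype ≤ S := by
    rintro _ ⟨y, hy, rfl⟩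
    exact Subgroup.mem_subgroupOf.1 hy
  obtain ⟨y, hy, hyx⟩ := hn (ds_mono h2 n h1)
  rwa [← Subtype.ext hyx]

section pull

variable {J J' : Type} [Group J] [Group J'] {J1 : Subgroup J} (π : J1 →* J')

/-- The preimage in `J`. -/
def pre (N : Subgroup J') : Subgroup J := (N.comap π).map J1.subtype

theorem mem_pre {N : Subgroup J'} {x : J} : x ∈ pre π N ↔ ∃ hx : x ∈ J1, π ⟨x, hx⟩ ∈ N := by
  constructor
  · rintro ⟨y, hy, rfl⟩
    exact ⟨y.2, hy⟩
  · rintro ⟨hx, h⟩
    exact ⟨⟨x, hx⟩, h, rfl⟩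

theorem cj_pre (N : Subgroup J') {g : J} (hg : g ∈ J1) :
    cj g (pre π N) = pre π (cj (π ⟨g, hg⟩) N) := by
  ext x
  rw [mem_cj, mem_pre, mem_pre]
  constructor
  · rintro ⟨hx, h⟩
    have hx1 : x ∈ J1 := by
      have h1 := J1.mul_mem (J1.mul_mem hg hx) (J1.inv_mem hg)
      have h2 : g * (g⁻¹ * x * g) * g⁻¹ = x := by group
      rwa [h2] at h1
    refine ⟨hx1, ?_⟩
    rw [mem_cj, ← map_inv, ← map_mul, ← map_mul]
    exact h
  · rintro ⟨hx, h⟩
    have hx1 : g⁻¹ * x * g ∈ J1 := J1.mul_mem (J1.mul_mem (J1.inv_mem hg) hx) hg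
    refine ⟨hx1, ?_⟩
    rw [mem_cj, ← map_inv, ← map_mul, ← map_mul] at h
    exact h

end pull

section main

variable {J : Type} [Group J] {B : Subgroup J}

theorem cent_le_nz (B : Subgroup J) : Subgroup.centralizer (B : Set J) ≤ nz B := by
  intro g hg
  rw [Subgroup.mem_centralizer_iff] at hg
  apply mem_nz_of
  · intro x hx
    have h1 := hg x hx
    have h2 : g * x * g⁻¹ = x := by
      rw [← h1]
      group
    rwa [h2]
  · intro x hx
    have h1 := hg x hx
    have h2 : g⁻¹ * x * g = x := by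
      have h3 : g⁻¹ * x * g = g⁻¹ * (x * g) := by group
      rw [h3, h1]
      group
    rwa [h2]

/-- Properties of the section `nz B / C(B)`, for a surjection `π : nz B → J'` with kernel the
centralizer of `B`. -/
structure Sec (B : Subgroup J) {J' : Type} [Group J'] (π : nz B →* J') : Prop where
  surj : Function.Surjective π
  ker : ∀ x : nz B, π x = 1 ↔ (x : J) ∈ Subgroup.centralizer (B : Set J)

variable {J' : Type} [Group J'] {π : nz B →* J'}

theorem Sec.bot (hJ : JNp J) (hB : Basal B) (s : Sec B π) : ¬ SFmod (⊥ : Subgroup J') := by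
  intro h
  rw [← sfmod_comap π s.surj] at h
  have h1 : (⊥ : Subgroup J').comap π =
      (Subgroup.centralizer (B : Set J)).subgroupOf (nz B) := by
    ext x
    rw [Subgroup.mem_comap, Subgroup.mem_bot, s.ker, Subgroup.mem_subgroupOf]
  rw [h1] at h
  have := hB.fin
  obtain ⟨S, hSn, hSf, n, hn⟩ := sfmod_up (nz B) _ h
  have hdn := ds_normal S hSn n
  have h2 : ∀ x ∈ ds S n, x ∈ Subgroup.centralizer
      ((Subgroup.normalClosure (B : Set J) : Subgroup J) : Set J) := by
    intro x hx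
    have h3 : Subgroup.normalClosure (B : Set J) ≤ Subgroup.centralizer {x} := by
      apply ncl_le
      intro g y hy
      rw [Subgroup.mem_centralizer_singleton_iff]
      have h4 : g⁻¹ * x * g ∈ ds S n := by
        have := hdn.conj_mem x hx g⁻¹
        rwa [inv_inv] at this
      have h5 := (Subgroup.mem_centralizer_iff.1 (hn h4)) _ (mem_cj.1 hy)
      calc y * x = g * ((g⁻¹ * y * g) * (g⁻¹ * x * g)) * g⁻¹ := by group
        _ = g * ((g⁻¹ * x * g) * (g⁻¹ * y * g)) * g⁻¹ := by rw [h5]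
        _ = x * y := by group
    rw [Subgroup.mem_centralizer_iff]
    intro y hy
    exact Subgroup.mem_centralizer_singleton_iff.1 (h3 hy)
  have h3 : Subgroup.normalClosure (B : Set J) ≠ ⊥ := by
    intro h4
    apply hB.ne
    rw [eq_bot_iff, ← h4]
    exact Subgroup.le_normalClosure
  rw [hJ.cent _ inferInstance h3] at h2
  exact hJ.bot ⟨S, hSn, hSf, n, fun x hx => h2 x hx⟩

theorem Sec.quot (hJ : JNp J) (hB : Basal B) (s : Sec B π) (N : Subgroup J') (hN : N.Normal)
    (hne : N ≠ ⊥) : SFmod N := by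
  rw [← sfmod_comap π s.surj]
  apply sfmod_down
  change SFmod (pre π N)
  have hJ1 : ∀ g ∈ nz B, cj g (pre π N) = pre π N := by
    intro g hg
    rw [cj_pre π N hg, cj_normal _ _ hN]
  -- the intersection with `B`
  have hA : pre π N ⊓ B ≠ ⊥ := by
    intro h1
    apply hne
    rw [eq_bot_iff]
    intro y hy
    obtain ⟨x, rfl⟩ := s.surj y
    rw [Subgroup.mem_bot, s.ker, Subgroup.mem_centralizer_iff]
    intro b hb
    have h2 := comm_of_inf (A := pre π N) (B := B)
      (by
        rintro z hz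
        obtain ⟨hz1, -⟩ := (mem_pre π).1 hz
        exact hz1)
      (fun z hz => hJ1 z (le_nz B hz)) h1 x ((mem_pre π).2 ⟨x.2, hy⟩) b hb
    exact h2.symm
  have h1 : Subgroup.normalClosure ((pre π N ⊓ B : Subgroup J) : Set J) ≤ pre π N := by
    apply ncl_le
    intro g
    by_cases hg : cj g B = B
    · rw [cj_inf, hJ1 g hg]
      exact inf_le_left
    · refine (cj_mono g inf_le_right).trans ?_
      intro x hx
      have h2 := hB.comm hg x hx
      have h3 : x ∈ Subgroup.centralizer (B : Set J) := by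
        rw [Subgroup.mem_centralizer_iff]
        intro b hb
        exact (h2 b hb).symm
      have h4 := cent_le_nz B h3
      refine (mem_pre π).2 ⟨h4, ?_⟩
      rw [(s.ker ⟨x, h4⟩).2 h3]
      exact N.one_mem
  refine sfmod_mono h1 (hJ.quot _ inferInstance ?_)
  intro h2
  apply hA
  rw [eq_bot_iff, ← h2]
  exact Subgroup.le_normalClosure

theorem Sec.jnp (hJ : JNp J) (hB : Basal B) (s : Sec B π) : JNp J' :=
  ⟨s.bot hJ hB, fun N hN hne => s.quot hJ hB N hN hne⟩

/-- Pulling back a basal subgroup. -/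
theorem Sec.pull (hJ : JNp J) (hB : Basal B) (s : Sec B π) (B' : Subgroup J') (hB' : Basal B') :
    ∃ B'' : Subgroup J, Basal B'' ∧ nz B'' < nz B := by
  have hJ' := s.jnp hJ hB
  set B3 : Subgroup J := pre π B' ⊓ B with hB3
  have hin : ∀ g : J, ∀ hg : g ∈ nz B, cj g B3 = pre π (cj (π ⟨g, hg⟩) B') ⊓ B := by
    intro g hg
    rw [hB3, cj_inf, cj_pre π B' hg, mem_nz.1 hg]
  have hout : ∀ g : J, g ∉ nz B → cj g B3 ⊓ B3 = ⊥ := by
    intro g hg
    rw [eq_bot_iff, ← (hB.dich g).resolve_left hg]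
    exact inf_le_inf (cj_mono g inf_le_right) inf_le_right
  have hC : ∀ x, x ∈ B → ∀ hx : x ∈ nz B, π ⟨x, hx⟩ = 1 → x = 1 := by
    intro x hxB hx h1
    have h2 : x ∈ B ⊓ Subgroup.centralizer (B : Set J) := ⟨hxB, (s.ker ⟨x, hx⟩).1 h1⟩
    rw [hB.cent_inf hJ] at h2
    exact Subgroup.mem_bot.1 h2
  have hne : B3 ≠ ⊥ := by
    intro h0
    -- the image of `B`
    let Bb : Subgroup J' := (B.subgroupOf (nz B)).map π
    have hBn : (B.subgroupOf (nz B)).Normal := by
      refine ⟨fun x hx g => ?_⟩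
      rw [Subgroup.mem_subgroupOf] at hx ⊢
      exact conj_mem_of_nz g.2 hx
    have hBbn : Bb.Normal := hBn.map π s.surj
    have hBbne : Bb ≠ ⊥ := by
      intro h1
      apply hB.ne
      rw [eq_bot_iff]
      intro x hx
      rw [Subgroup.mem_bot]
      refine hC x hx (le_nz B hx) ?_
      have h2 : π ⟨x, le_nz B hx⟩ ∈ Bb := ⟨⟨x, le_nz B hx⟩, hx, rfl⟩
      rw [h1] at h2
      exact Subgroup.mem_bot.1 h2
    have := hB'.fin
    set K' : Subgroup J' := (nz B').normalCore with hK'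
    have hK'ne : K' ≠ ⊥ := hJ'.ne_bot K'
    have hK'n : K'.Normal := inferInstance
    have h1 : Bb ⊓ K' ≠ ⊥ := hJ'.inf Bb K' hBbn hK'n hBbne hK'ne
    have hn : (Bb ⊓ K').Normal := inferInstance
    have h2 : B' ≤ Subgroup.centralizer ((Bb ⊓ K' : Subgroup J') : Set J') := by
      intro y hy
      rw [Subgroup.mem_centralizer_iff]
      intro z hz
      have h3 := comm_of_inf (A := B') (B := Bb ⊓ K')
        (by rw [nz_of_normal _ hn]; exact le_top)
        (inf_le_right.trans (Subgroup.normalCore_le _))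
        (by
          rw [eq_bot_iff]
          rintro w ⟨hw, ⟨v, hv, rfl⟩, -⟩
          have h4 : (v : J) ∈ B3 := ⟨(mem_pre π).2 ⟨v.2, hw⟩, hv⟩
          rw [h0, Subgroup.mem_bot] at h4
          have h5 : v = 1 := Subtype.ext h4
          rw [h5, map_one]
          exact Subgroup.one_mem _) y hy z hz
      exact h3.symm
    rw [hJ'.cent _ hn h1, le_bot_iff] at h2
    exact hB'.ne h2
  have hdich' : ∀ g : J, ∀ hg : g ∈ nz B, cj (π ⟨g, hg⟩) B' ≠ B' → cj g B3 ⊓ B3 = ⊥ := by
    intro g hg h1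
    have h2 := (hB'.dich (π ⟨g, hg⟩)).resolve_left h1
    rw [eq_bot_iff]
    rintro x ⟨hx1, hx2⟩
    rw [hin g hg] at hx1
    obtain ⟨hx3, hx4⟩ := (mem_pre π).1 hx1.1
    obtain ⟨hx5, hx6⟩ := (mem_pre π).1 hx2.1
    have h3 : π ⟨x, hx3⟩ ∈ cj (π ⟨g, hg⟩) B' ⊓ B' := ⟨hx4, hx6⟩
    rw [h2] at h3
    rw [Subgroup.mem_bot]
    exact hC x hx2.2 hx3 (Subgroup.mem_bot.1 h3)
  have hself : ∀ g : J, cj g B3 = B3 → cj g B3 ⊓ B3 ≠ ⊥ := by
    intro g hg
    rw [hg, inf_idem]
    exact hne
  have hle : nz B3 ≤ nz B := by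
    intro g hg
    by_contra hcon
    exact hself g hg (hout g hcon)
  obtain ⟨γ, hγ⟩ := hB'.not_normal
  obtain ⟨⟨g, hg⟩, rfl⟩ := s.surj γ
  have hgn : cj g B3 ≠ B3 := fun h1 => hself g h1 (hdich' g hg hγ)
  refine ⟨B3, ⟨hne, ?_, ?_, ?_, ⟨g, hgn⟩⟩, lt_of_le_of_ne hle ?_⟩
  · have h1 : pre π (nz B') ≤ nz B3 := by
      intro x hx
      obtain ⟨hx1, hx2⟩ := (mem_pre π).1 hx
      rw [mem_nz, hin x hx1, mem_nz.1 hx2]
    have h2 : (pre π (nz B')).FiniteIndex := by
      refine ⟨?_⟩
      rw [pre, Subgroup.index_map_subtype, Subgroup.index_comap_of_surjective _ s.surj]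
      exact mul_ne_zero hB'.fin.index_ne_zero hB.fin.index_ne_zero
    exact Subgroup.finiteIndex_of_le h1
  · intro k x hx
    by_cases hk : k ∈ nz B
    · rw [hin k hk]
      obtain ⟨hx1, hx2⟩ := (mem_pre π).1 hx.1
      have h5 : x ∈ nz (pre π (cj (π ⟨k, hk⟩) B')) := by
        rw [mem_nz, cj_pre π _ hx1, mem_nz.1 (hB'.nn (π ⟨k, hk⟩) hx2)]
      exact nz_inf _ _ ⟨h5, hx1⟩
    · have h1 := hB.comm hk
      apply mem_nz_of
      · intro y hy
        have h2 := h1 y (cj_mono k inf_le_right hy) x hx.2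
        have h3 : x * y * x⁻¹ = y := by
          rw [← h2]
          group
        rwa [h3]
      · intro y hy
        have h2 := h1 y (cj_mono k inf_le_right hy) x hx.2
        have h3 : x⁻¹ * y * x = y := by
          have h4 : x⁻¹ * y * x = x⁻¹ * (y * x) := by group
          rw [h4, h2]
          group
        rwa [h3]
  · intro k
    by_cases hk : k ∈ nz B
    · by_cases h1 : cj (π ⟨k, hk⟩) B' = B'
      · left
        rw [hin k hk, h1]
      · exact Or.inr (hdich' k hk h1)
    · exact Or.inr (hout k hk)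
  · intro h1
    apply hgn
    have h2 : g ∈ nz B3 := by
      rw [h1]
      exact hg
    exact h2

end main

/-- A just non-(soluble-by-finite) group with an identity `HasId` has finite exponent or a
hereditarily just non-(soluble-by-finite) section. -/
theorem exists_her {D : List Tm} (hD : PosId D) {J : Type} [Group J] (hfg : Group.FG J)
    (hId : HasId D J) (hJ : JNp J) :
    (∃ e : ℕ, 1 ≤ e ∧ ∀ x : J, x ^ e = 1) ∨
      ∃ (H : Subgroup J) (J' : Type) (_ : Group J') (f : H →* J'), H.FiniteIndex ∧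
        Function.Surjective f ∧ JNp J' ∧ Her J' := by
  by_cases hHer : Her J
  · right
    exact ⟨⊤, J, inferInstance, (⊤ : Subgroup J).subtype, inferInstance,
      fun x => ⟨⟨x, Subgroup.mem_top x⟩, rfl⟩, hJ, hHer⟩
  -- exponent
  set e : ℕ := (D.map fun t => t.2.1).prod with he
  have he1 : 1 ≤ e := by
    apply Nat.one_le_iff_ne_zero.2
    rw [he]
    apply List.prod_ne_zero
    intro h0
    obtain ⟨t, ht, h1⟩ := List.mem_map.1 h0
    have h2 := hD t ht
    omega
  by_cases hexp : ∀ x : J, x ^ e = 1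
  · exact Or.inl ⟨e, he1, hexp⟩
  right
  set E : Subgroup J := Subgroup.closure (Set.range fun x : J => x ^ e) with hE
  have hEn : E.Normal := by
    apply normal_of_nz
    have h1 : ∀ g : J, E ≤ cj g E := by
      intro g
      rw [hE, Subgroup.closure_le]
      rintro _ ⟨x, rfl⟩
      rw [SetLike.mem_coe, mem_cj]
      apply Subgroup.subset_closure
      refine ⟨g⁻¹ * x * g, ?_⟩
      have h2 : g⁻¹ * x * g = MulAut.conj g⁻¹ x := by simp
      have h3 : g⁻¹ * x ^ e * g = MulAut.conj g⁻¹ (x ^ e) := by simp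
      change (g⁻¹ * x * g) ^ e = g⁻¹ * x ^ e * g
      rw [h2, h3, map_pow]
    intro g
    apply le_antisymm _ (h1 g)
    have h2 := cj_mono g (h1 g⁻¹)
    rwa [cj_cj_inv] at h2
  have hEne : E ≠ ⊥ := by
    intro h0
    apply hexp
    intro x
    have h1 : x ^ e ∈ E := Subgroup.subset_closure ⟨x, rfl⟩
    rw [h0] at h1
    exact Subgroup.mem_bot.1 h1
  have hEf : E.FiniteIndex := by
    obtain ⟨S, hSn, hSf, hSs⟩ := (solByFin_quot_iff E).2 (hJ.quot E hEn hEne)
    have hfg' : Group.FG (J ⧸ E) := by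
      have := hfg
      exact Group.fg_of_surjective (QuotientGroup.mk'_surjective E)
    have hfin := finite_exp hfg' S hSn hSf hSs e he1 (by
      intro y
      obtain ⟨x, rfl⟩ := QuotientGroup.mk'_surjective E y
      rw [← map_pow, QuotientGroup.mk'_apply, QuotientGroup.eq_one_iff]
      exact Subgroup.subset_closure ⟨x, rfl⟩)
    exact Subgroup.finiteIndex_of_finite_quotient
  -- a basal subgroup whose normalizer has maximal index
  have hbound : ∀ B : Subgroup J, Basal B → (nz B).index ≤ E.index := by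
    intro B hB
    have h1 : E ≤ nz B := by
      rw [hE, Subgroup.closure_le]
      rintro _ ⟨x, rfl⟩
      exact hB.exp_mem hId hJ x
    exact Nat.le_of_dvd (Nat.pos_of_ne_zero hEf.index_ne_zero) (Subgroup.index_dvd_of_le h1)
  unfold Her at hHer
  push Not at hHer
  obtain ⟨N, hN1, hN2, hN3⟩ := hHer
  obtain ⟨B0, hB0⟩ := exists_basal hJ N hN1 hN2 hN3
  obtain ⟨B, hB, hBmax⟩ : ∃ B : Subgroup J, Basal B ∧
      ∀ B' : Subgroup J, Basal B' → (nz B').index ≤ (nz B).index := by
    let T : Set ℕ := {n | ∃ B : Subgroup J, Basal B ∧ (nz B).index = n}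
    have hTne : T.Nonempty := ⟨_, B0, hB0, rfl⟩
    have hTb : BddAbove T := by
      refine ⟨E.index, ?_⟩
      rintro _ ⟨B, hB, rfl⟩
      exact hbound B hB
    obtain ⟨B, hB, hBn⟩ := Nat.sSup_mem hTne hTb
    refine ⟨B, hB, fun B' hB' => ?_⟩
    rw [hBn]
    exact le_csSup hTb ⟨B', hB', rfl⟩
  -- the section
  have hCn : ((Subgroup.centralizer (B : Set J)).subgroupOf (nz B)).Normal := by
    refine ⟨fun x hx g => ?_⟩
    rw [Subgroup.mem_subgroupOf, Subgroup.mem_centralizer_iff] at hx ⊢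
    intro b hb
    have h1 := hx _ (conj_mem_of_nz' g.2 hb)
    have h2 : ((g * x * g⁻¹ : nz B) : J) = g * x * (g : J)⁻¹ := rfl
    rw [h2]
    calc b * ((g : J) * x * (g : J)⁻¹) = g * (((g : J)⁻¹ * b * g) * x) * (g : J)⁻¹ := by group
      _ = g * (x * ((g : J)⁻¹ * b * g)) * (g : J)⁻¹ := by rw [h1]
      _ = (g : J) * x * (g : J)⁻¹ * b := by group
  have hs : Sec B (QuotientGroup.mk' ((Subgroup.centralizer (B : Set J)).subgroupOf (nz B))) := by
    refine ⟨QuotientGroup.mk'_surjective _, fun x => ?_⟩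
    rw [QuotientGroup.mk'_apply, QuotientGroup.eq_one_iff, Subgroup.mem_subgroupOf]
  refine ⟨nz B, _, inferInstance, _, hB.fin, QuotientGroup.mk'_surjective
    ((Subgroup.centralizer (B : Set J)).subgroupOf (nz B)), hs.jnp hJ hB, ?_⟩
  intro N' h1 h2
  by_contra h3
  obtain ⟨B', hB'⟩ := exists_basal (hs.jnp hJ hB) N' h1 h2 h3
  obtain ⟨B'', hB'', hlt⟩ := hs.pull hJ hB B' hB'
  have := hB''.fin
  have h4 := Subgroup.index_strictAnti hlt
  have h5 := hBmax B'' hB''
  omega

end Pool.Agent.Helper83.JN
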