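import Pool.Agent.Helper83.JN.Just4

/-!
# JN-7: sections, the monolith, simple sections
-/

namespace Pool.Agent.Helper83.JN

open Pool.Agent.Helper32.SmallVar Pool.Agent.Helper13.PV Pool.Agent.Helper83.SV
open scoped commutatorElement Pointwise

variable {L : Set (FreeGroup ℕ)}

/-- `J` is a quotient of a subgroup of finite index of `G`. -/
def Sect (G J : Type) [Group G] [Group J] : Prop :=
  ∃ (H : Subgroup G) (f : H →* J), H.FiniteIndex ∧ Function.Surjective f

theorem Sect.of_surj {G J : Type} [Group G] [Group J] (f : G →* J) (hf : Function.Surjective f) :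
    Sect G J := by
  refine ⟨⊤, f.comp (⊤ : Subgroup G).subtype, inferInstance, ?_⟩
  intro y
  obtain ⟨x, rfl⟩ := hf y
  exact ⟨⟨x, Subgroup.mem_top x⟩, rfl⟩

theorem Sect.trans {G J K : Type} [Group G] [Group J] [Group K] (h1 : Sect G J)
    (h2 : Sect J K) : Sect G K := by
  obtain ⟨H, f, hH, hf⟩ := h1
  obtain ⟨H', f', hH', hf'⟩ := h2
  let e : H'.comap f ≃* (H'.comap f).map H.subtype :=
    (H'.comap f).equivMapOfInjective H.subtype H.subtype_injective
  refine ⟨(H'.comap f).map H.subtype, (f'.comp (f.subgroupComap H')).comp e.symm.toMonoidHom,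
    ⟨?_⟩, ?_⟩
  · rw [Subgroup.index_map_subtype, Subgroup.index_comap_of_surjective _ hf]
    exact mul_ne_zero hH'.index_ne_zero hH.index_ne_zero
  · exact (hf'.comp (MonoidHom.subgroupComap_surjective_of_surjective f H' hf)).comp
      e.symm.surjective

theorem Sect.fg {G J : Type} [Group G] [Group J] (h : Sect G J) (hG : Group.FG G) :
    Group.FG J := by
  obtain ⟨H, f, hH, hf⟩ := h
  have hfg : Group.FG H := Subgroup.fg_of_index_ne_zero H
  exact Group.fg_of_surjective hf

theorem Sect.laws {G J : Type} [Group G] [Group J] (h : Sect G J) (hG : SatisfiesLaws L G) :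
    SatisfiesLaws L J := by
  obtain ⟨H, f, hH, hf⟩ := h
  exact laws_of_surj f hf (laws_of_inj H.subtype H.subtype_injective hG)

/-- A finite subset of a directed union. -/
theorem chain_fin {G : Type} [Group G] {c : Set (Subgroup G)} {y : Subgroup G} (hy : y ∈ c)
    (hdir : DirectedOn (· ≤ ·) c) (t : Finset G) (ht : (t : Set G) ⊆ (sSup c : Subgroup G)) :
    ∃ N ∈ c, (t : Set G) ⊆ N := by
  classical
  induction t using Finset.induction_on with
  | empty => exact ⟨y, hy, by simp⟩
  | insert a t _ ih =>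
    rw [Finset.coe_insert, Set.insert_subset_iff] at ht
    obtain ⟨N, hN, htN⟩ := ih ht.2
    obtain ⟨N', hN', haN⟩ := (Subgroup.mem_sSup_of_directedOn ⟨y, hy⟩ hdir).1 ht.1
    obtain ⟨P, hP, h1, h2⟩ := hdir N hN N' hN'
    refine ⟨P, hP, ?_⟩
    rw [Finset.coe_insert, Set.insert_subset_iff]
    exact ⟨h2 haN, htN.trans h1⟩

/-- A nontrivial finitely generated group has a simple quotient. -/
theorem exists_simple_quot {G : Type} [Group G] (hG : Group.FG G) (hn : (⊥ : Subgroup G) ≠ ⊤) :
    ∃ K : Subgroup G, ∃ _ : K.Normal, IsSimpleGroup (G ⧸ K) := by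
  have hz := zorn_le_nonempty₀ {N : Subgroup G | N.Normal ∧ N ≠ ⊤} ?_ ⊥ ⟨inferInstance, hn⟩
  · obtain ⟨K, -, hK⟩ := hz
    have hKn : K.Normal := hK.prop.1
    have hne : K ≠ ⊤ := hK.prop.2
    refine ⟨K, hKn, ?_⟩
    have hnt : Nontrivial (G ⧸ K) := QuotientGroup.nontrivial_iff.2 hne
    refine ⟨fun N hN => ?_⟩
    have h1 : K ≤ N.comap (QuotientGroup.mk' K) := by
      intro x hx
      rw [Subgroup.mem_comap, QuotientGroup.mk'_apply, (QuotientGroup.eq_one_iff x).2 hx]
      exact N.one_mem
    by_cases h2 : N.comap (QuotientGroup.mk' K) = ⊤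
    · right
      rw [eq_top_iff]
      intro y _
      obtain ⟨x, rfl⟩ := QuotientGroup.mk'_surjective K y
      have h3 : x ∈ N.comap (QuotientGroup.mk' K) := by
        rw [h2]
        exact Subgroup.mem_top x
      exact h3
    · left
      have h0 : (N.comap (QuotientGroup.mk' K)).Normal ∧ N.comap (QuotientGroup.mk' K) ≠ ⊤ :=
        ⟨hN.comap _, h2⟩
      have h3 : N.comap (QuotientGroup.mk' K) ≤ K := hK.le_of_ge h0 h1
      rw [eq_bot_iff]
      intro y hy
      obtain ⟨x, rfl⟩ := QuotientGroup.mk'_surjective K y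
      rw [Subgroup.mem_bot, QuotientGroup.mk'_apply, QuotientGroup.eq_one_iff]
      exact h3 hy
  · intro c hc hch y hy
    have hdir : DirectedOn (· ≤ ·) c := hch.directedOn
    have hmem : ∀ x, x ∈ sSup c ↔ ∃ N ∈ c, x ∈ N := fun x =>
      Subgroup.mem_sSup_of_directedOn ⟨y, hy⟩ hdir
    have hn : (sSup c).Normal := by
      refine ⟨fun x hx g => ?_⟩
      obtain ⟨N, hN, hxN⟩ := (hmem x).1 hx
      exact (hmem _).2 ⟨N, hN, (hc hN).1.conj_mem x hxN g⟩
    refine ⟨sSup c, ⟨hn, ?_⟩, fun z hz => le_sSup hz⟩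
    intro htop
    obtain ⟨s, hs⟩ := hG.out
    obtain ⟨N, hN, hsN⟩ := chain_fin hy hdir s (by
      rw [htop]
      exact fun x _ => Subgroup.mem_top x)
    apply (hc hN).2
    rw [eq_top_iff, ← hs, Subgroup.closure_le]
    exact hsN

/-- The intersection of all nontrivial normal subgroups. -/
def mono (J : Type) [Group J] : Subgroup J := sInf {N | N.Normal ∧ N ≠ ⊥}

section mono

variable {J : Type} [Group J]

theorem mono_le {N : Subgroup J} (hN : N.Normal) (h : N ≠ ⊥) : mono J ≤ N := sInf_le ⟨hN, h⟩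

instance mono_normal : (mono J).Normal := by
  refine ⟨fun x hx g => ?_⟩
  rw [mono, Subgroup.mem_sInf] at hx ⊢
  intro N hN
  exact hN.1.conj_mem x (hx N hN) g

theorem exists_of_mono_bot (h : mono J = ⊥) (x : J) (hx : x ≠ 1) :
    ∃ N : Subgroup J, N.Normal ∧ N ≠ ⊥ ∧ x ∉ N := by
  by_contra hcon
  push Not at hcon
  apply hx
  rw [← Subgroup.mem_bot, ← h, mono, Subgroup.mem_sInf]
  rintro N ⟨h1, h2⟩
  exact hcon N h1 h2

theorem JNp.mono_perfect (h : JNp J) (hm : mono J ≠ ⊥) : ⁅mono J, mono J⁆ = mono J := by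
  apply le_antisymm (Subgroup.commutator_le_self _)
  apply mono_le inferInstance
  intro h1
  apply hm
  apply h.abelian _ inferInstance
  intro a ha b hb
  have h2 := Subgroup.commutator_mem_commutator ha hb
  rw [h1, Subgroup.mem_bot] at h2
  exact commutatorElement_eq_one_iff_mul_comm.1 h2

/-- Everything with the property `SFmod` contains the monolith. -/
theorem JNp.mono_le_of_sfmod (h : JNp J) {N : Subgroup J} (hN : SFmod N) : mono J ≤ N := by
  obtain ⟨S, h1, h2, n, hn⟩ := hN
  refine (mono_le (ds_normal S h1 n) ?_).trans hn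
  intro h3
  exact h.bot ⟨S, h1, h2, n, h3.le⟩

/-- If the monolith is nontrivial and of finite index, there is a section which is an infinite
simple group. -/
theorem JNp.simple (h : JNp J) (hfg : Group.FG J) (hm : mono J ≠ ⊥)
    (hf : (mono J).FiniteIndex) :
    ∃ (S : Type) (_ : Group S), Sect J S ∧ IsSimpleGroup S ∧ Infinite S ∧
      ¬ ∀ a b : S, a * b = b * a := by
  have hMfg : Group.FG (mono J) := Subgroup.fg_of_index_ne_zero _
  have hnt : (⊥ : Subgroup (mono J)) ≠ ⊤ := by
    intro h1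
    apply hm
    rw [eq_bot_iff]
    intro x hx
    have h2 : (⟨x, hx⟩ : mono J) ∈ (⊤ : Subgroup (mono J)) := Subgroup.mem_top _
    rw [← h1, Subgroup.mem_bot] at h2
    rw [Subgroup.mem_bot]
    exact congrArg Subtype.val h2
  obtain ⟨K, hK, hS⟩ := exists_simple_quot hMfg hnt
  have hKtop : K ≠ ⊤ := by
    have := hS.toNontrivial
    exact QuotientGroup.nontrivial_iff.1 this
  refine ⟨mono J ⧸ K, inferInstance, ⟨mono J, QuotientGroup.mk' K, hf,
    QuotientGroup.mk'_surjective K⟩, hS, ?_, ?_⟩
  · by_contra hcon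
    rw [not_infinite_iff_finite] at hcon
    have h1 : K.FiniteIndex := Subgroup.finiteIndex_of_finite_quotient
    have h2 : (K.map (mono J).subtype).FiniteIndex := by
      refine ⟨?_⟩
      rw [Subgroup.index_map_subtype]
      exact mul_ne_zero h1.index_ne_zero hf.index_ne_zero
    have h3 := h.mono_le_of_sfmod (sfmod_of_index (K.map (mono J).subtype))
    apply hKtop
    rw [eq_top_iff]
    intro x _
    obtain ⟨y, hy, hyx⟩ := h3 x.2
    rwa [← Subtype.ext hyx]
  · intro hab
    apply hKtop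
    -- the monolith is perfect
    have h1 : (⁅mono J, mono J⁆ : Subgroup J) ≤ K.map (mono J).subtype := by
      rw [Subgroup.commutator_le]
      intro a ha b hb
      refine ⟨⁅(⟨a, ha⟩ : mono J), ⟨b, hb⟩⁆, ?_, rfl⟩
      change ⁅(⟨a, ha⟩ : mono J), ⟨b, hb⟩⁆ ∈ K
      rw [← QuotientGroup.eq_one_iff, ← QuotientGroup.mk'_apply, map_commutatorElement,
        commutatorElement_eq_one_iff_mul_comm]
      exact hab _ _
    rw [h.mono_perfect hm] at h1
    rw [eq_top_iff]
    intro x _
    obtain ⟨y, hy, hyx⟩ := h1 x.2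
    rwa [← Subtype.ext hyx]

end mono

/-- A nonabelian infinite simple group is just non-(soluble-by-finite). -/
theorem jnp_of_simple {S : Type} [Group S] (hS : IsSimpleGroup S) (hi : Infinite S)
    (hab : ¬ ∀ a b : S, a * b = b * a) : JNp S := by
  have hn : ∀ N : Subgroup S, N.Normal → N = ⊥ ∨ N = ⊤ := fun N hN =>
    hS.eq_bot_or_eq_top_of_normal N hN
  constructor
  · rintro ⟨T, h1, h2, n, hn'⟩
    have hT : T = ⊤ := by
      rcases hn T h1 with rfl | rfl
      · exfalso
        have h3 : Finite (S ⧸ (⊥ : Subgroup S)) := Subgroup.finite_quotient_of_finiteIndex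
        have h4 : Finite S := Finite.of_equiv _ (QuotientGroup.quotientBot (G := S)).toEquiv
        exact not_finite S
      · rfl
    have hcomm : (⁅(⊤ : Subgroup S), ⊤⁆ : Subgroup S) = ⊤ := by
      rcases hn _ (inferInstance : (⁅(⊤ : Subgroup S), ⊤⁆ : Subgroup S).Normal) with h3 | h3
      · exfalso
        apply hab
        intro a b
        have h4 := Subgroup.commutator_mem_commutator (Subgroup.mem_top a) (Subgroup.mem_top b)
        rw [h3, Subgroup.mem_bot] at h4
        exact commutatorElement_eq_one_iff_mul_comm.1 h4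
      · exact h3
    have hds : ∀ m, ds (⊤ : Subgroup S) m = ⊤ := by
      intro m
      induction m with
      | zero => rfl
      | succ m ih =>
        change ⁅ds ⊤ m, ds ⊤ m⁆ = ⊤
        rw [ih, hcomm]
    rw [hT, hds n] at hn'
    apply hab
    intro a b
    have h3 : ∀ x : S, x = 1 := fun x => Subgroup.mem_bot.1 (hn' (Subgroup.mem_top x))
    rw [h3 a, h3 b]
  · intro N hN hne
    rcases hn N hN with rfl | rfl
    · exact absurd rfl hne
    · exact sfmod_of_index ⊤

end Pool.Agent.Helper83.JN
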