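import Pool.Agent.Helper83.JN.Just5

/-!
# JN-8: the simple quotients of the monolith
-/

namespace Pool.Agent.Helper83.JN

open Pool.Agent.Helper32.SmallVar Pool.Agent.Helper13.PV Pool.Agent.Helper83.SV
open scoped commutatorElement Pointwise

variable {L : Set (FreeGroup ℕ)}

theorem exp_fin {J : Type} [Group J] (hfg : Group.FG J) (N : Subgroup J) (hN : N.Normal)
    (hs : SFmod N) (e : ℕ) (he : 1 ≤ e) (h : ∀ x : J, x ^ e ∈ N) : N.FiniteIndex := by
  obtain ⟨S, hSn, hSf, hSs⟩ := (solByFin_quot_iff N).2 hs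
  have hfg' : Group.FG (J ⧸ N) := by
    have := hfg
    exact Group.fg_of_surjective (QuotientGroup.mk'_surjective N)
  have hfin := finite_exp hfg' S hSn hSf hSs e he (by
    intro y
    obtain ⟨x, rfl⟩ := QuotientGroup.mk'_surjective N y
    rw [← map_pow, QuotientGroup.mk'_apply, QuotientGroup.eq_one_iff]
    exact h x)
  exact Subgroup.finiteIndex_of_finite_quotient

theorem powers_fin {J : Type} [Group J] (hfg : Group.FG J) (hJ : JNp J) (e : ℕ) (he : 1 ≤ e)
    (hexp : ¬ ∀ x : J, x ^ e = 1) (N : Subgroup J) (hN : ∀ x : J, x ^ e ∈ N) :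
    N.FiniteIndex := by
  set E : Subgroup J := Subgroup.closure (Set.range fun x : J => x ^ e) with hE
  have hEn : E.Normal := by
    apply normal_of_nz
    have h1 : ∀ g : J, E ≤ cj g E := by
      intro g
      rw [hE, Subgroup.closure_le]
      rintro _ ⟨x, rfl⟩
      rw [SetLike.mem_coe, mem_cj]
      apply Subgroup.subset_closure
      refine ⟨g⁻¹ * x * g, ?_⟩
      have h2 : g⁻¹ * x * g = MulAut.conj g⁻¹ x := by simp
      have h3 : g⁻¹ * x ^ e * g = MulAut.conj g⁻¹ (x ^ e) := by simp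
      change (g⁻¹ * x * g) ^ e = g⁻¹ * x ^ e * g
      rw [h2, h3, map_pow]
    intro g
    apply le_antisymm _ (h1 g)
    have h2 := cj_mono g (h1 g⁻¹)
    rwa [cj_cj_inv] at h2
  have hEne : E ≠ ⊥ := by
    intro h0
    apply hexp
    intro x
    have h1 : x ^ e ∈ E := Subgroup.subset_closure ⟨x, rfl⟩
    rw [h0] at h1
    exact Subgroup.mem_bot.1 h1
  have hEf : E.FiniteIndex := exp_fin hfg E hEn (hJ.quot E hEn hEne) e he fun x =>
    Subgroup.subset_closure ⟨x, rfl⟩
  refine Subgroup.finiteIndex_of_le (H := E) ?_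
  rw [hE, Subgroup.closure_le]
  rintro _ ⟨x, rfl⟩
  exact hN x

/-- The exponent sum of the letter `x`. -/
def ex : FreeGroup (Fin 3) →* Multiplicative ℤ :=
  FreeGroup.lift ![1, Multiplicative.ofAdd 1, 1]

theorem ex_word {Γ U : Type} [Group Γ] [Group U] (f : Γ →* U) (b y u : Γ)
    (hb : f b = 1) (hu : f u = 1) (w : FreeGroup (Fin 3)) :
    f (FreeGroup.lift ![b, y, u] w) = f y ^ (Multiplicative.toAdd (ex w)) := by
  have h : f.comp (FreeGroup.lift ![b, y, u])
      = (zpowersHom U (f y)).comp ex := by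
    ext i
    fin_cases i
    · simp [ex, hb]
    · simp [ex]
    · simp [ex, hu]
  exact DFunLike.congr_fun h w

section simp

variable {J S : Type} [Group J] [Group S] (M : Subgroup J) (q : M →* S)

/-- The kernel as a subgroup of `J`. -/
def Kq : Subgroup J := q.ker.map M.subtype

theorem mem_Kq {x : J} : x ∈ Kq M q ↔ ∃ hx : x ∈ M, q ⟨x, hx⟩ = 1 := by
  constructor
  · rintro ⟨y, hy, rfl⟩
    exact ⟨y.2, hy⟩
  · rintro ⟨hx, h⟩
    exact ⟨⟨x, hx⟩, h, rfl⟩

theorem Kq_le : Kq M q ≤ M := fun _ hx => ((mem_Kq M q).1 hx).1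

theorem le_nz_Kq : M ≤ nz (Kq M q) := by
  intro g hg
  apply mem_nz_of
  · intro x hx
    obtain ⟨h1, h2⟩ := (mem_Kq M q).1 hx
    refine (mem_Kq M q).2 ⟨M.mul_mem (M.mul_mem hg h1) (M.inv_mem hg), ?_⟩
    have h3 : (⟨g * x * g⁻¹, M.mul_mem (M.mul_mem hg h1) (M.inv_mem hg)⟩ : M) =
        ⟨g, hg⟩ * ⟨x, h1⟩ * ⟨g, hg⟩⁻¹ := rfl
    rw [h3, map_mul, map_mul, h2, map_inv]
    group
  · intro x hx
    obtain ⟨h1, h2⟩ := (mem_Kq M q).1 hx
    refine (mem_Kq M q).2 ⟨M.mul_mem (M.mul_mem (M.inv_mem hg) h1) hg, ?_⟩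
    have h3 : (⟨g⁻¹ * x * g, M.mul_mem (M.mul_mem (M.inv_mem hg) h1) hg⟩ : M) =
        ⟨g, hg⟩⁻¹ * ⟨x, h1⟩ * ⟨g, hg⟩ := rfl
    rw [h3, map_mul, map_mul, h2, map_inv]
    group

variable {M q}

theorem image_dich (hS : IsSimpleGroup S) (hq : Function.Surjective q) (A : Subgroup J)
    (hAn : M ≤ nz A) : (A.subgroupOf M).map q = ⊥ ∨ (A.subgroupOf M).map q = ⊤ := by
  have hn : (A.subgroupOf M).Normal := by
    refine ⟨fun x hx g => ?_⟩
    rw [Subgroup.mem_subgroupOf] at hx ⊢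
    exact conj_mem_of_nz (hAn g.2) hx
  exact hS.eq_bot_or_eq_top_of_normal _ (hn.map q hq)

theorem le_Kq_of_bot {A : Subgroup J} (hA : A ≤ M) (h : (A.subgroupOf M).map q = ⊥) :
    A ≤ Kq M q := by
  intro a ha
  refine (mem_Kq M q).2 ⟨hA ha, ?_⟩
  have h1 : q ⟨a, hA ha⟩ ∈ (A.subgroupOf M).map q := ⟨⟨a, hA ha⟩, ha, rfl⟩
  rw [h] at h1
  exact Subgroup.mem_bot.1 h1

/-- The kernel is prime. -/
theorem prime (hS : IsSimpleGroup S) (hab : ¬ ∀ a b : S, a * b = b * a)
    (hq : Function.Surjective q) (A B : Subgroup J) (hA : A ≤ M) (hB : B ≤ M)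
    (hAn : M ≤ nz A) (hBn : M ≤ nz B) (h : ∀ a ∈ A, ∀ b ∈ B, ⁅a, b⁆ ∈ Kq M q) :
    A ≤ Kq M q ∨ B ≤ Kq M q := by
  rcases image_dich hS hq A hAn with h1 | h1
  · exact Or.inl (le_Kq_of_bot hA h1)
  rcases image_dich hS hq B hBn with h2 | h2
  · exact Or.inr (le_Kq_of_bot hB h2)
  exfalso
  apply hab
  intro s t
  have hs : s ∈ (A.subgroupOf M).map q := by
    rw [h1]
    exact Subgroup.mem_top s
  have ht : t ∈ (B.subgroupOf M).map q := by
    rw [h2]
    exact Subgroup.mem_top t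
  obtain ⟨a, ha, rfl⟩ := hs
  obtain ⟨b, hb, rfl⟩ := ht
  obtain ⟨h3, h4⟩ := (mem_Kq M q).1 (h a ha b hb)
  have h5 : (⟨⁅(a : J), (b : J)⁆, h3⟩ : M) = ⁅a, b⁆ := rfl
  rw [h5, map_commutatorElement, commutatorElement_eq_one_iff_mul_comm] at h4
  exact h4

theorem not_le_Kq (hS : IsSimpleGroup S) (hq : Function.Surjective q) : ¬ M ≤ Kq M q := by
  intro h
  have := hS.toNontrivial
  obtain ⟨s, hs⟩ := exists_ne (1 : S)
  obtain ⟨⟨a, ha⟩, rfl⟩ := hq s
  obtain ⟨h1, h2⟩ := (mem_Kq M q).1 (h ha)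
  exact hs h2

/-- The kernel is maximal. -/
theorem cj_eq_of_le (hM : M.Normal) (hS : IsSimpleGroup S) (hq : Function.Surjective q) (g : J)
    (h : cj g (Kq M q) ≤ Kq M q) : cj g (Kq M q) = Kq M q := by
  apply le_antisymm h
  have hAM : cj g⁻¹ (Kq M q) ≤ M := by
    have h1 := cj_mono g⁻¹ (Kq_le M q)
    rwa [cj_normal _ _ hM] at h1
  have hKA : Kq M q ≤ cj g⁻¹ (Kq M q) := by
    have h1 := cj_mono g⁻¹ h
    rwa [cj_inv_cj] at h1
  rcases image_dich hS hq (cj g⁻¹ (Kq M q)) (nz_cj g⁻¹ _ hM (le_nz_Kq M q)) with h1 | h1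
  · have h2 := cj_mono g (le_Kq_of_bot hAM h1)
    rwa [cj_cj_inv] at h2
  · exfalso
    have h2 : M ≤ cj g⁻¹ (Kq M q) := by
      intro m hm
      have h3 : q ⟨m, hm⟩ ∈ ((cj g⁻¹ (Kq M q)).subgroupOf M).map q := by
        rw [h1]
        exact Subgroup.mem_top _
      obtain ⟨a, ha, hae⟩ := h3
      have h4 : m * (a : J)⁻¹ ∈ Kq M q := by
        refine (mem_Kq M q).2 ⟨M.mul_mem hm (M.inv_mem a.2), ?_⟩
        have h5 : (⟨m * (a : J)⁻¹, M.mul_mem hm (M.inv_mem a.2)⟩ : M) = ⟨m, hm⟩ * a⁻¹ := rfl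
        rw [h5, map_mul, map_inv, hae, mul_inv_cancel]
      have h5 : m * (a : J)⁻¹ * (a : J) ∈ cj g⁻¹ (Kq M q) := Subgroup.mul_mem _ (hKA h4) ha
      rwa [inv_mul_cancel_right] at h5
    have h3 := cj_mono g h2
    rw [cj_cj_inv, cj_normal _ _ hM] at h3
    exact not_le_Kq hS hq h3

/-- Intersections of conjugates. -/
def Pl (K M : Subgroup J) (x : J) : List ℤ → Subgroup J
  | [] => M
  | i :: l => cj (x ^ i) K ⊓ Pl K M x l

theorem Pl_le (K M : Subgroup J) (x : J) (l : List ℤ) : Pl K M x l ≤ M := by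
  induction l with
  | nil => exact le_rfl
  | cons i l ih => exact inf_le_right.trans ih

theorem mem_Pl {K M : Subgroup J} {x : J} {l : List ℤ} {b : J} (hb : b ∈ Pl K M x l) {i : ℤ}
    (hi : i ∈ l) : b ∈ cj (x ^ i) K := by
  induction l with
  | nil => simp at hi
  | cons j l ih =>
    rcases List.mem_cons.1 hi with rfl | h
    · exact hb.1
    · exact ih hb.2 h

theorem Pl_nz {K M : Subgroup J} (hM : M.Normal) (hK : M ≤ nz K) (x : J) (l : List ℤ) :
    M ≤ nz (Pl K M x l) := by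
  induction l with
  | nil => exact le_nz M
  | cons i l ih => exact le_trans (le_inf (nz_cj _ _ hM hK) ih) (nz_inf _ _)

theorem Pl_not_le (hM : M.Normal) (hS : IsSimpleGroup S) (hab : ¬ ∀ a b : S, a * b = b * a)
    (hq : Function.Surjective q) (x : J) (l : List ℤ)
    (hl : ∀ i ∈ l, ¬ cj (x ^ i) (Kq M q) ≤ Kq M q) : ¬ Pl (Kq M q) M x l ≤ Kq M q := by
  induction l with
  | nil => exact not_le_Kq hS hq
  | cons i l ih =>
    intro h
    have hAM : cj (x ^ i) (Kq M q) ≤ M := by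
      have h1 := cj_mono (x ^ i) (Kq_le M q)
      rwa [cj_normal _ _ hM] at h1
    have hnA := nz_cj (x ^ i) _ hM (le_nz_Kq M q)
    have hnB := Pl_nz hM (le_nz_Kq M q) x l
    rcases prime hS hab hq (cj (x ^ i) (Kq M q)) (Pl (Kq M q) M x l) hAM (Pl_le _ _ _ _)
      hnA hnB (by
        intro a ha b hb
        apply h
        constructor
        · have h1 : ⁅a, b⁆ = a * (b * a⁻¹ * b⁻¹) := by
            rw [commutatorElement_def]
            group
          rw [h1]
          exact Subgroup.mul_mem _ ha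
            (conj_mem_of_nz (hnA (Pl_le _ _ _ _ hb)) (Subgroup.inv_mem _ ha))
        · rw [commutatorElement_def]
          exact Subgroup.mul_mem _ (conj_mem_of_nz (hnB (hAM ha)) hb) (Subgroup.inv_mem _ hb)) with
      h1 | h1
    · exact hl i List.mem_cons_self h1
    · exact ih (fun j hj => hl j (List.mem_cons_of_mem _ hj)) h1

/-- The exponent attached to a term. -/
def it (t : Tm) : ℤ :=
  if (t.2.1 : ℤ) + Multiplicative.toAdd (ex t.2.2) = 0 then (t.2.1 : ℤ)
  else -((t.2.1 : ℤ) + Multiplicative.toAdd (ex t.2.2))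

theorem it_ne {D : List Tm} (hD : PosId D) {t : Tm} (ht : t ∈ D) : it t ≠ 0 := by
  have h1 := hD t ht
  unfold it
  split_ifs with h
  · omega
  · omega

theorem exists_it {D : List Tm} (hId : HasId D J) (hM : M.Normal)
    (hS : IsSimpleGroup S) (hab : ¬ ∀ a b : S, a * b = b * a) (hq : Function.Surjective q)
    (x : J) : ∃ t ∈ D, x ^ it t ∈ nz (Kq M q) := by
  by_contra hcon
  push Not at hcon
  set K : Subgroup J := Kq M q with hK
  have hno : ∀ t ∈ D, ¬ cj (x ^ it t) K ≤ K := fun t ht h =>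
    hcon t ht (cj_eq_of_le hM hS hq _ h)
  let P : Tm → Prop := fun t => (t.2.1 : ℤ) + Multiplicative.toAdd (ex t.2.2) = 0
  have hPd : DecidablePred P := fun t => by
    change Decidable ((t.2.1 : ℤ) + Multiplicative.toAdd (ex t.2.2) = 0)
    infer_instance
  let l0 : List ℤ := (D.filter fun t => decide (P t)).map it
  let l1 : List ℤ := (D.filter fun t => !decide (P t)).map it
  have hl0 : ∀ i ∈ l0, ¬ cj (x ^ i) K ≤ K := by
    intro i hi
    obtain ⟨t, ht, rfl⟩ := List.mem_map.1 hi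
    exact hno t (List.mem_of_mem_filter ht)
  have hl1 : ∀ i ∈ l1, ¬ cj (x ^ i) K ≤ K := by
    intro i hi
    obtain ⟨t, ht, rfl⟩ := List.mem_map.1 hi
    exact hno t (List.mem_of_mem_filter ht)
  have hA := Pl_not_le hM hS hab hq x l1 hl1
  have hB := Pl_not_le hM hS hab hq x l0 hl0
  have hnz := le_nz_Kq M q
  rcases prime hS hab hq (Pl K M x l1) (Pl K M x l0) (Pl_le _ _ _ _) (Pl_le _ _ _ _)
    (Pl_nz hM hnz x l1) (Pl_nz hM hnz x l0) (by
      intro b hb u hu
      have hbM : b ∈ M := Pl_le _ _ _ _ hb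
      have huM : u ∈ M := Pl_le _ _ _ _ hu
      rw [hId b x u]
      apply Subgroup.list_prod_mem
      intro y hy
      obtain ⟨t, ht, rfl⟩ := List.mem_map.1 hy
      set k : ℤ := Multiplicative.toAdd (ex t.2.2) with hk
      set c : J := x ^ t.2.1 * b * (x ^ t.2.1)⁻¹ with hc
      have hcM : c ∈ M := hM.conj_mem b hbM _
      have hnk : M ≤ nz (cj (x ^ (-k)) K) := nz_cj _ _ hM hnz
      -- the commutator is in a conjugate of `K`
      have hcu : ⁅c, u⁆ ∈ cj (x ^ (-k)) K := by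
        by_cases hP : P t
        · have h1 : it t = (t.2.1 : ℤ) := if_pos hP
          have h2 : u ∈ cj (x ^ it t) K := by
            apply mem_Pl hu
            exact List.mem_map.2 ⟨t, List.mem_filter.2 ⟨ht, by simpa using hP⟩, rfl⟩
          have h3 : it t = -k := by
            have h4 : (t.2.1 : ℤ) + k = 0 := hP
            rw [h1]
            omega
          rw [h3] at h2
          rw [commutatorElement_def]
          exact Subgroup.mul_mem _ (conj_mem_of_nz (hnk hcM) h2) (Subgroup.inv_mem _ h2)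
        · have h1 : it t = -((t.2.1 : ℤ) + k) := if_neg hP
          have h2 : b ∈ cj (x ^ it t) K := by
            apply mem_Pl hb
            exact List.mem_map.2 ⟨t, List.mem_filter.2 ⟨ht, by simpa using hP⟩, rfl⟩
          have h3 : c ∈ cj (x ^ (-k)) K := by
            have h4 := conj_mem_cj (g := x ^ t.2.1) h2
            rw [← cj_mul, ← zpow_natCast, ← zpow_add, h1] at h4
            have h5 : (t.2.1 : ℤ) + -((t.2.1 : ℤ) + k) = -k := by ring
            rw [h5, zpow_natCast] at h4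
            exact h4
          have h6 : ⁅c, u⁆ = c * (u * c⁻¹ * u⁻¹) := by
            rw [commutatorElement_def]
            group
          rw [h6]
          exact Subgroup.mul_mem _ h3 (conj_mem_of_nz (hnk huM) (Subgroup.inv_mem _ h3))
      -- the conjugating element
      have hg : FreeGroup.lift ![b, x, u] t.2.2 * x ^ (-k) ∈ M := by
        rw [← QuotientGroup.eq_one_iff, ← QuotientGroup.mk'_apply, map_mul,
          ex_word (QuotientGroup.mk' M) b x u ((QuotientGroup.eq_one_iff b).2 hbM)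
            ((QuotientGroup.eq_one_iff u).2 huM), map_zpow, ← hk, ← zpow_add]
        simp
      have hfin : ∀ y ∈ cj (x ^ (-k)) K, FreeGroup.lift ![b, x, u] t.2.2 * y *
          (FreeGroup.lift ![b, x, u] t.2.2)⁻¹ ∈ K := by
        intro y hy
        rw [mem_cj] at hy
        have h1 := conj_mem_of_nz (hnz hg) hy
        have h2 : FreeGroup.lift ![b, x, u] t.2.2 * x ^ (-k) * ((x ^ (-k))⁻¹ * y * x ^ (-k)) *
            (FreeGroup.lift ![b, x, u] t.2.2 * x ^ (-k))⁻¹ =
            FreeGroup.lift ![b, x, u] t.2.2 * y * (FreeGroup.lift ![b, x, u] t.2.2)⁻¹ := by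
          group
        rwa [h2] at h1
      unfold tv
      split_ifs
      · exact hfin _ hcu
      · exact hfin _ (Subgroup.inv_mem _ hcu)) with h1 | h1
  · exact hA h1
  · exact hB h1

end simp

/-- A simple quotient of the monolith (of infinite index) is the monolith itself. -/
theorem simple_quot {D : List Tm} (hD : PosId D) {J : Type} [Group J] (hfg : Group.FG J)
    (hId : HasId D J) (hJ : JNp J) (hHer : Her J) (hm : mono J ≠ ⊥)
    (hinf : ¬ (mono J).FiniteIndex) (K : Subgroup (mono J)) [hK : K.Normal]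
    (hS : IsSimpleGroup (mono J ⧸ K)) : K = ⊥ := by
  have hKtop : K ≠ ⊤ := by
    have := hS.toNontrivial
    exact QuotientGroup.nontrivial_iff.1 this
  have hab : ¬ ∀ a b : mono J ⧸ K, a * b = b * a := by
    intro hab
    apply hKtop
    have h1 : (⁅mono J, mono J⁆ : Subgroup J) ≤ K.map (mono J).subtype := by
      rw [Subgroup.commutator_le]
      intro a ha b hb
      refine ⟨⁅(⟨a, ha⟩ : mono J), ⟨b, hb⟩⁆, ?_, rfl⟩
      change ⁅(⟨a, ha⟩ : mono J), ⟨b, hb⟩⁆ ∈ K
      rw [← QuotientGroup.eq_one_iff, ← QuotientGroup.mk'_apply, map_commutatorElement,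
        commutatorElement_eq_one_iff_mul_comm]
      exact hab _ _
    rw [hJ.mono_perfect hm] at h1
    rw [eq_top_iff]
    intro x _
    obtain ⟨y, hy, hyx⟩ := h1 x.2
    rwa [← Subtype.ext hyx]
  have hq := QuotientGroup.mk'_surjective K
  set e : ℕ := (D.map fun t => (it t).natAbs).prod with he
  have he1 : 1 ≤ e := by
    apply Nat.one_le_iff_ne_zero.2
    rw [he]
    apply List.prod_ne_zero
    intro h0
    obtain ⟨t, ht, h1⟩ := List.mem_map.1 h0
    exact it_ne hD ht (Int.natAbs_eq_zero.1 h1)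
  have hexp : ¬ ∀ x : J, x ^ e = 1 := by
    intro h1
    apply hinf
    refine exp_fin hfg (mono J) inferInstance (hJ.quot _ inferInstance hm) e he1 fun x => ?_
    rw [h1 x]
    exact Subgroup.one_mem _
  have hN : ∀ x : J, x ^ e ∈ nz (Kq (mono J) (QuotientGroup.mk' K)) := by
    intro x
    obtain ⟨t, ht, h1⟩ := exists_it (M := mono J) hId mono_normal hS hab hq x
    have h2 : x ^ (it t).natAbs ∈ nz (Kq (mono J) (QuotientGroup.mk' K)) := by
      rcases Int.natAbs_eq (it t) with h3 | h3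
      · rw [h3, zpow_natCast] at h1
        exact h1
      · rw [h3, zpow_neg, zpow_natCast] at h1
        exact (Subgroup.inv_mem_iff _).1 h1
    have h3 : (it t).natAbs ∣ e := List.dvd_prod (List.mem_map.2 ⟨t, ht, rfl⟩)
    obtain ⟨k, hk⟩ := h3
    rw [hk, pow_mul]
    exact Subgroup.pow_mem _ h2 k
  have hfi := powers_fin hfg hJ e he1 hexp _ hN
  by_contra hne
  have hKne : Kq (mono J) (QuotientGroup.mk' K) ≠ ⊥ := by
    intro h1
    apply hne
    rw [eq_bot_iff]
    intro x hx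
    have h2 : (x : J) ∈ Kq (mono J) (QuotientGroup.mk' K) :=
      (mem_Kq _ _).2 ⟨x.2, (QuotientGroup.eq_one_iff x).2 hx⟩
    rw [h1, Subgroup.mem_bot] at h2
    rw [Subgroup.mem_bot]
    exact Subtype.ext h2
  exact not_le_Kq hS hq (hJ.mono_le_of_sfmod (hHer _ hKne hfi))

end Pool.Agent.Helper83.JN
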