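import Pool.Agent.Helper83.JN.Just6

/-!
# JN-9: the final form
-/

namespace Pool.Agent.Helper83.JN

open Pool.Agent.Helper32.SmallVar Pool.Agent.Helper13.PV Pool.Agent.Helper83.SV
open scoped commutatorElement Pointwise

variable {L : Set (FreeGroup ℕ)}

theorem her_quot {J : Type} [Group J] (h : Her J) (K : Subgroup J) [K.FiniteIndex]
    (N : Subgroup K) [hN : N.Normal] (hne : N ≠ ⊥) :
    SFmod (N.map K.subtype) ∧ SolByFin (K ⧸ N) := by
  have h1 : K ≤ nz (N.map K.subtype) := by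
    intro g hg
    apply mem_nz_of
    · rintro _ ⟨x, hx, rfl⟩
      exact ⟨⟨g, hg⟩ * x * ⟨g, hg⟩⁻¹, hN.conj_mem x hx _, rfl⟩
    · rintro _ ⟨x, hx, rfl⟩
      refine ⟨⟨g, hg⟩⁻¹ * x * ⟨g, hg⟩, ?_, rfl⟩
      have h2 := hN.conj_mem x hx (⟨g, hg⟩ : K)⁻¹
      rwa [inv_inv] at h2
  have h2 : N.map K.subtype ≠ ⊥ := by
    intro h3
    apply hne
    exact (Subgroup.map_eq_bot_iff_of_injective _ K.subtype_injective).1 h3
  have h3 := h _ h2 (Subgroup.finiteIndex_of_le h1)
  exact ⟨h3, (solByFin_quot_iff N).2 (sfmod_down K N h3)⟩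

/-- The four kinds of just non-(soluble-by-finite) sections. -/
theorem kinds {D : List Tm} (hD : PosId D) {J0 : Type} [Group J0] (hfg : Group.FG J0)
    (hId : HasId D J0) (hJ0 : JNp J0) :
    ∃ (J : Type) (_ : Group J), Sect J0 J ∧ JNp J ∧
      ((IsSimpleGroup J ∧ Infinite J) ∨
        (Infinite J ∧ (∃ e : ℕ, 1 ≤ e ∧ ∀ x : J, x ^ e = 1) ∧
          ∀ x : J, x ≠ 1 → ∃ N : Subgroup J, N.Normal ∧ N.FiniteIndex ∧ x ∉ N) ∨
        (Her J ∧ ∀ x : J, x ≠ 1 → ∃ (N : Subgroup J) (_ : N.Normal), SolByFin (J ⧸ N) ∧ x ∉ N) ∨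
        (Her J ∧ ∃ M : Subgroup J, M.Normal ∧ M ≠ ⊥ ∧ ¬ M.FiniteIndex ∧ ⁅M, M⁆ = M ∧
          (∀ N : Subgroup J, SFmod N → M ≤ N) ∧
          ∀ (N : Subgroup M) [N.Normal], IsSimpleGroup (M ⧸ N) → N = ⊥)) := by
  have hsimple : ∀ (J : Type) [Group J], Sect J0 J → Group.FG J → JNp J → mono J ≠ ⊥ →
      (mono J).FiniteIndex → ∃ (S : Type) (_ : Group S), Sect J0 S ∧ JNp S ∧
        (IsSimpleGroup S ∧ Infinite S) := by
    intro J _ hs hJf hJ hm hf
    obtain ⟨S, hSg, h1, h2, h3, h4⟩ := hJ.simple hJf hm hf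
    exact ⟨S, hSg, hs.trans h1, jnp_of_simple h2 h3 h4, h2, h3⟩
  rcases exists_her hD hfg hId hJ0 with ⟨e, he, hexp⟩ | ⟨H, J, hJg, f, hH, hf, hJ, hHer⟩
  · by_cases hm : mono J0 = ⊥
    · refine ⟨J0, inferInstance, Sect.of_surj (MonoidHom.id J0) Function.surjective_id, hJ0,
        Or.inr (Or.inl ⟨?_, ⟨e, he, hexp⟩, ?_⟩)⟩
      · by_contra hcon
        rw [not_infinite_iff_finite] at hcon
        exact hJ0.bot (sfmod_of_index _)
      · intro x hx
        obtain ⟨N, h1, h2, h3⟩ := exists_of_mono_bot hm x hx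
        refine ⟨N, h1, exp_fin hfg N h1 (hJ0.quot N h1 h2) e he fun y => ?_, h3⟩
        rw [hexp y]
        exact N.one_mem
    · have hfi : (mono J0).FiniteIndex := exp_fin hfg _ inferInstance
        (hJ0.quot _ inferInstance hm) e he fun y => by
          rw [hexp y]
          exact Subgroup.one_mem _
      obtain ⟨S, hSg, h1, h2, h3⟩ := hsimple J0
        (Sect.of_surj (MonoidHom.id J0) Function.surjective_id) hfg hJ0 hm hfi
      exact ⟨S, hSg, h1, h2, Or.inl h3⟩
  · have hs : Sect J0 J := ⟨H, f, hH, hf⟩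
    have hJf : Group.FG J := hs.fg hfg
    have hJid : HasId D J := by
      have h1 : HasId D H := fun b x u => by
        apply Subtype.ext
        have h2 := hId b x u
        have h3 : ∀ t : Tm, ((tv b x u t : H) : J0) = tv (b : J0) x u t := by
          intro t
          have h4 : ((FreeGroup.lift ![b, x, u] t.2.2 : H) : J0) =
              FreeGroup.lift ![(b : J0), x, u] t.2.2 := by
            have h5 : H.subtype.comp (FreeGroup.lift ![b, x, u]) =
                FreeGroup.lift ![(b : J0), x, u] := by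
              ext i
              fin_cases i <;> simp
            exact DFunLike.congr_fun h5 _
          unfold tv
          rw [← h4]
          split_ifs <;> rfl
        have h4 : ((D.map (tv b x u)).prod : H) = ((D.map (tv (b : J0) x u)).prod : J0) := by
          rw [← Subgroup.coe_subtype, map_list_prod, List.map_map]
          congr 1
          exact List.map_congr_left fun t _ => h3 t
        rw [h4]
        exact h2
      exact h1.of_surj f hf
    by_cases hm : mono J = ⊥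
    · refine ⟨J, inferInstance, hs, hJ, Or.inr (Or.inr (Or.inl ⟨hHer, ?_⟩))⟩
      intro x hx
      obtain ⟨N, h1, h2, h3⟩ := exists_of_mono_bot hm x hx
      exact ⟨N, h1, (solByFin_quot_iff N).2 (hJ.quot N h1 h2), h3⟩
    · by_cases hfi : (mono J).FiniteIndex
      · obtain ⟨S, hSg, h1, h2, h3⟩ := hsimple J hs hJf hJ hm hfi
        exact ⟨S, hSg, h1, h2, Or.inl h3⟩
      · refine ⟨J, inferInstance, hs, hJ, Or.inr (Or.inr (Or.inr ⟨hHer, mono J,
          inferInstance, hm, hfi, hJ.mono_perfect hm, fun N hN => hJ.mono_le_of_sfmod hN, ?_⟩))⟩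
        intro N hN hS
        exact simple_quot hD hJf hJid hJ hHer hm hfi N hS

end Pool.Agent.Helper83.JN
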