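import Pool.Agent.Helper83.SV.EATame

/-!
# JN-1: relatively tame sets

`QT L π S`: for each word `w (z, y)` there are a finite subset `Z` of the kernel of `π` and a finite
subset `E` of `S` such that in every group of the variety, for every homomorphism `φ` that kills
`Z`, the vanishing of `w (z, φ e)` for `e ∈ E` implies it for all elements of `S`.

`qt_of_eas`: if the image of `π : K → Λ` is in the class `EAs` and `K` is finitely generated, then
`K` is relatively tame. The proof is the one of `tame_of_eas`: cyclic groups are tame uniformly.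
-/

namespace Pool.Agent.Helper83.JN

open Pool.Agent.Helper32.SmallVar Pool.Agent.Helper13.PV Pool.Agent.Helper83.SV
open scoped commutatorElement Pointwise

variable {L : Set (FreeGroup ℕ)}

/-- `S` is tame modulo finitely many elements of the kernel of `π`. -/
def QT (L : Set (FreeGroup ℕ)) {K Λ : Type} [Group K] [Group Λ] (π : K →* Λ) (S : Set K) : Prop :=
  ∀ (ι : Type) [Finite ι] (w : FreeGroup (Option ι)), ∃ Z : Finset K, (∀ g ∈ Z, π g = 1) ∧
    ∃ E : Finset K, (E : Set K) ⊆ S ∧
      ∀ (H : Type) [Group H], SatisfiesLaws L H → ∀ (φ : K →* H), (∀ g ∈ Z, φ g = 1) →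
        ∀ z : ι → H, (∀ e ∈ E, ev z (φ e) w = 1) → ∀ s ∈ S, ev z (φ s) w = 1

private theorem map_ev' {ι G H : Type} [Group G] [Group H] (φ : G →* H) (z : ι → G) (y : G)
    (w : FreeGroup (Option ι)) : φ (ev z y w) = ev (fun i => φ (z i)) (φ y) w := by
  have : φ.comp (ev z y) = ev (fun i => φ (z i)) (φ y) := by
    ext o
    cases o <;> simp [ev]
  rw [← this]; rfl

theorem qt_of_tame {K Λ : Type} [Group K] [Group Λ] (π : K →* Λ) {S : Set K} (hS : Tame L S) :
    QT L π S := by
  intro ι _ w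
  obtain ⟨E, hE, h⟩ := hS ι w
  exact ⟨∅, by simp, E, hE, fun H _ hH φ _ z he => h H hH φ z he⟩

theorem qt_mul {K Λ : Type} [Group K] [Group Λ] (π : K →* Λ) {S S' : Set K} (hS : QT L π S)
    (hS' : QT L π S') : QT L π (S * S') := by
  classical
  intro ι _ w
  let Z : ι → FreeGroup (Option (Option ι)) := fun i => FreeGroup.of (some (some i))
  let Y : FreeGroup (Option (Option ι)) := FreeGroup.of none
  let C : FreeGroup (Option (Option ι)) := FreeGroup.of (some none)
  have key1 : ∀ (H : Type) [Group H] (z : ι → H) (c y : H),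
      ev (fun o : Option ι => o.elim c z) y (ev Z (Y * C) w) = ev z (y * c) w := by
    intro H _ z c y
    rw [map_ev', map_mul]
    have h1 : ev (fun o : Option ι => o.elim c z) y Y = y := by simp [ev, Y]
    have h2 : ev (fun o : Option ι => o.elim c z) y C = c := by simp [ev, C]
    have h3 : (fun i => ev (fun o : Option ι => o.elim c z) y (Z i)) = z := by
      funext i
      simp [ev, Z]
    rw [h1, h2, h3]
  have key2 : ∀ (H : Type) [Group H] (z : ι → H) (c y : H),
      ev (fun o : Option ι => o.elim c z) y (ev Z (C * Y) w) = ev z (c * y) w := by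
    intro H _ z c y
    rw [map_ev', map_mul]
    have h1 : ev (fun o : Option ι => o.elim c z) y Y = y := by simp [ev, Y]
    have h2 : ev (fun o : Option ι => o.elim c z) y C = c := by simp [ev, C]
    have h3 : (fun i => ev (fun o : Option ι => o.elim c z) y (Z i)) = z := by
      funext i
      simp [ev, Z]
    rw [h1, h2, h3]
  obtain ⟨Z₁, hZ₁, E₁, hE₁, h₁⟩ := hS (Option ι) (ev Z (Y * C) w)
  obtain ⟨Z₂, hZ₂, E₂, hE₂, h₂⟩ := hS' (Option ι) (ev Z (C * Y) w)
  refine ⟨Z₁ ∪ Z₂, ?_, E₁ * E₂, ?_, ?_⟩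
  · intro g hg
    rcases Finset.mem_union.1 hg with hg | hg
    · exact hZ₁ g hg
    · exact hZ₂ g hg
  · rw [Finset.coe_mul]
    exact Set.mul_subset_mul hE₁ hE₂
  · intro H _ hH φ hφ z he s hs
    obtain ⟨a, ha, b, hb, rfl⟩ := Set.mem_mul.mp hs
    have hφ1 : ∀ g ∈ Z₁, φ g = 1 := fun g hg => hφ g (Finset.mem_union_left _ hg)
    have hφ2 : ∀ g ∈ Z₂, φ g = 1 := fun g hg => hφ g (Finset.mem_union_right _ hg)
    have h3 : ∀ e ∈ E₁, ev z (φ e * φ b) w = 1 := by
      intro e he1
      have h4 := h₂ H hH φ hφ2 (fun o : Option ι => o.elim (φ e) z) (fun e' he' => by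
        rw [key2, ← map_mul]
        exact he _ (Finset.mul_mem_mul he1 he')) b hb
      rwa [key2] at h4
    have h4 := h₁ H hH φ hφ1 (fun o : Option ι => o.elim (φ b) z) (fun e he1 => by
      rw [key1]
      exact h3 e he1) a ha
    rw [key1] at h4
    rw [map_mul]
    exact h4

/-- The substitution `y ↦ p * (y * a * y⁻¹) * q`. -/
private def orbSub (ι : Type) : FreeGroup (Option ι) →* FreeGroup (Option (ι ⊕ Fin 3)) :=
  FreeGroup.lift fun o => o.elim
    (FreeGroup.of (some (Sum.inr 0)) *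
      (FreeGroup.of none * FreeGroup.of (some (Sum.inr 1)) * (FreeGroup.of none)⁻¹) *
      FreeGroup.of (some (Sum.inr 2)))
    (fun i => FreeGroup.of (some (Sum.inl i)))

private theorem ev_orbSub {ι H : Type} [Group H] (z : ι → H) (p a q y : H)
    (w : FreeGroup (Option ι)) :
    ev (Sum.elim z ![p, a, q]) y (orbSub ι w) = ev z (p * (y * a * y⁻¹) * q) w := by
  have h : (ev (Sum.elim z ![p, a, q]) y).comp (orbSub ι) = ev z (p * (y * a * y⁻¹) * q) := by
    apply FreeGroup.ext_hom
    intro o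
    cases o with
    | none => simp [ev, orbSub]
    | some i => simp [ev, orbSub]
  exact congrArg (fun f => f w) h

theorem qt_orbit {K Λ : Type} [Group K] [Group Λ] (π : K →* Λ) {S : Set K} (A : Set K)
    (hS : QT L π S)
    (h : ∀ E : Finset K, (E : Set K) ⊆ S →
      QT L π (Subgroup.closure {g | ∃ a ∈ A, ∃ e ∈ E, g = e * a * e⁻¹} : Set K)) :
    QT L π (Subgroup.closure {g | ∃ a ∈ A, ∃ s ∈ S, g = s * a * s⁻¹} : Set K) := by
  classical
  intro ι _ w
  obtain ⟨Z₁, hZ₁, E, hES, hE⟩ := hS (ι ⊕ Fin 3) (orbSub ι w)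
  obtain ⟨Z₂, hZ₂, E', hE'P, hE'⟩ := h E hES ι w
  refine ⟨Z₁ ∪ Z₂, ?_, E', ?_, ?_⟩
  · intro g hg
    rcases Finset.mem_union.1 hg with hg | hg
    · exact hZ₁ g hg
    · exact hZ₂ g hg
  · refine hE'P.trans ?_
    have h1 : Subgroup.closure {g | ∃ a ∈ A, ∃ e ∈ E, g = e * a * e⁻¹} ≤
        Subgroup.closure {g | ∃ a ∈ A, ∃ s ∈ S, g = s * a * s⁻¹} := by
      apply Subgroup.closure_mono
      rintro g ⟨a, ha, e, he, rfl⟩
      exact ⟨a, ha, e, hES he, rfl⟩
    exact h1
  · intro H _ hH φ hφ z hz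
    have hφ1 : ∀ g ∈ Z₁, φ g = 1 := fun g hg => hφ g (Finset.mem_union_left _ hg)
    have hφ2 : ∀ g ∈ Z₂, φ g = 1 := fun g hg => hφ g (Finset.mem_union_right _ hg)
    have hP := hE' H hH φ hφ2 z hz
    -- the key step
    have step : ∀ (g c : K) (b : K) (s : K), s ∈ S → c = s * b * s⁻¹ →
        (b ∈ A ∨ b⁻¹ ∈ A) →
        (∀ k ∈ Subgroup.closure {g | ∃ a ∈ A, ∃ e ∈ E, g = e * a * e⁻¹}, ev z (φ (g * k)) w = 1) →
        ∀ k ∈ Subgroup.closure {g | ∃ a ∈ A, ∃ e ∈ E, g = e * a * e⁻¹},
          ev z (φ (g * c * k)) w = 1 := by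
      intro g c b s hs hc hb hg k hk
      have h2 := hE H hH φ hφ1 (Sum.elim z ![φ g, φ b, φ k]) (by
        intro e he
        rw [ev_orbSub]
        have h3 : φ g * (φ e * φ b * (φ e)⁻¹) * φ k = φ (g * (e * b * e⁻¹ * k)) := by
          simp [mul_assoc]
        rw [h3]
        apply hg
        apply Subgroup.mul_mem _ _ hk
        rcases hb with hb | hb
        · exact Subgroup.subset_closure ⟨b, hb, e, he, rfl⟩
        · have h4 : e * b * e⁻¹ = (e * b⁻¹ * e⁻¹)⁻¹ := by
            group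
          rw [h4]
          exact Subgroup.inv_mem _ (Subgroup.subset_closure ⟨b⁻¹, hb, e, he, rfl⟩)) s hs
      rw [ev_orbSub] at h2
      have h3 : φ g * (φ s * φ b * (φ s)⁻¹) * φ k = φ (g * c * k) := by
        rw [hc]
        simp [mul_assoc]
      rw [h3] at h2
      exact h2
    have main : ∀ g ∈ Subgroup.closure {g | ∃ a ∈ A, ∃ s ∈ S, g = s * a * s⁻¹},
        ∀ k ∈ Subgroup.closure {g | ∃ a ∈ A, ∃ e ∈ E, g = e * a * e⁻¹},
          ev z (φ (g * k)) w = 1 := by
      intro g hg
      induction hg using Subgroup.closure_induction_right with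
      | one =>
        intro k hk
        rw [one_mul]
        exact hP k hk
      | mul_right x hx y hy ih =>
        obtain ⟨a, ha, s, hs, rfl⟩ := hy
        exact step x _ a s hs rfl (Or.inl ha) ih
      | mul_inv_cancel x hx y hy ih =>
        obtain ⟨a, ha, s, hs, rfl⟩ := hy
        refine step x _ a⁻¹ s hs ?_ (Or.inr ?_) ih
        · group
        · rw [inv_inv]
          exact ha
    intro s hs
    have h5 := main s hs 1 (Subgroup.one_mem _)
    rw [mul_one] at h5
    exact h5

/-- A subgroup is relatively tame if it is so as a group. -/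
theorem qt_sub {K Λ Λ' : Type} [Group K] [Group Λ] [Group Λ'] (π : K →* Λ) (P : Subgroup K)
    (π' : P →* Λ') (hπ : ∀ p : P, π' p = 1 → π p = 1) (h : QT L π' (Set.univ : Set P)) :
    QT L π (P : Set K) := by
  classical
  intro ι _ w
  obtain ⟨Z, hZ, E, -, hE⟩ := h ι w
  refine ⟨Z.image Subtype.val, ?_, E.image Subtype.val, ?_, ?_⟩
  · intro g hg
    obtain ⟨p, hp, rfl⟩ := Finset.mem_image.1 hg
    exact hπ p (hZ p hp)
  · intro g hg
    obtain ⟨p, hp, rfl⟩ := Finset.mem_image.1 (Finset.mem_coe.1 hg)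
    exact p.2
  · intro H _ hH φ hφ z he s hs
    exact hE H hH (φ.comp P.subtype) (fun g hg => hφ g (Finset.mem_image_of_mem _ hg)) z
      (fun e he1 => he e (Finset.mem_image_of_mem _ he1)) ⟨s, hs⟩ (Set.mem_univ _)

theorem qt_mono {K Λ : Type} [Group K] [Group Λ] (π : K →* Λ) {S : Set K} (hS : QT L π S)
    (Z₀ : Finset K) (hZ₀ : ∀ g ∈ Z₀, π g = 1) (S' : Set K)
    (h : ∀ (H : Type) [Group H], ∀ φ : K →* H, (∀ g ∈ Z₀, φ g = 1) → ∀ s' ∈ S', ∃ s ∈ S,
      φ s = φ s') (hSS : S ⊆ S') : QT L π S' := by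
  classical
  intro ι _ w
  obtain ⟨Z, hZ, E, hES, hE⟩ := hS ι w
  refine ⟨Z₀ ∪ Z, ?_, E, hES.trans hSS, ?_⟩
  · intro g hg
    rcases Finset.mem_union.1 hg with hg | hg
    · exact hZ₀ g hg
    · exact hZ g hg
  · intro H _ hH φ hφ z he s' hs'
    obtain ⟨s, hs, hss⟩ := h H φ (fun g hg => hφ g (Finset.mem_union_left _ hg)) s' hs'
    rw [← hss]
    exact hE H hH φ (fun g hg => hφ g (Finset.mem_union_right _ hg)) z he s hs

/-- The product of the cyclic groups generated by the members of a list. -/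
def lprod {K : Type} [Group K] : List K → Set K
  | [] => {1}
  | a :: l => (Subgroup.zpowers a : Set K) * lprod l

theorem tame_lprod (hL : AllHopfian L) {K : Type} [Group K] (l : List K) :
    Tame L (lprod l) := by
  induction l with
  | nil => exact tame_finite (Set.finite_singleton 1)
  | cons a l ih => exact tame_mul (tame_zpowers hL a) ih

/-- In a commutative image, all products of elements of the list are images of `lprod l`. -/
theorem lprod_image {K H : Type} [Group K] [Group H] (φ : K →* H) (l : List K)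
    (hc : ∀ a ∈ l, ∀ b ∈ l, φ a * φ b = φ b * φ a) :
    ∀ g ∈ Subgroup.closure {a | a ∈ l}, ∃ s ∈ lprod l, φ s = φ g := by
  induction l with
  | nil =>
    intro g hg
    have h1 : {a : K | a ∈ ([] : List K)} = ∅ := by simp
    rw [h1, Subgroup.closure_empty, Subgroup.mem_bot] at hg
    exact ⟨1, rfl, by rw [hg]⟩
  | cons a l ih =>
    have hcl : ∀ a' ∈ l, ∀ b ∈ l, φ a' * φ b = φ b * φ a' := fun a' ha' b hb =>
      hc a' (List.mem_cons_of_mem _ ha') b (List.mem_cons_of_mem _ hb)
    have ih := ih hcl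
    -- the images of the closure of `l` commute with the image of `a`
    have hca : ∀ g ∈ Subgroup.closure {b | b ∈ l}, Commute (φ a) (φ g) := by
      intro g hg
      induction hg using Subgroup.closure_induction with
      | mem y hy => exact hc a List.mem_cons_self y (List.mem_cons_of_mem _ hy)
      | one => rw [map_one]; exact Commute.one_right _
      | mul y z _ _ hy hz => rw [map_mul]; exact hy.mul_right hz
      | inv y _ hy => rw [map_inv]; exact hy.inv_right
    intro g hg
    have h1 : ∃ k : ℤ, ∃ p ∈ Subgroup.closure {b | b ∈ l}, φ g = φ a ^ k * φ p := by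
      induction hg using Subgroup.closure_induction with
      | mem y hy =>
        rcases List.mem_cons.1 hy with rfl | hy
        · exact ⟨1, 1, Subgroup.one_mem _, by simp⟩
        · exact ⟨0, y, Subgroup.subset_closure hy, by simp⟩
      | one => exact ⟨0, 1, Subgroup.one_mem _, by simp⟩
      | mul y z _ _ hy hz =>
        obtain ⟨k, p, hp, hk⟩ := hy
        obtain ⟨k', p', hp', hk'⟩ := hz
        refine ⟨k + k', p * p', Subgroup.mul_mem _ hp hp', ?_⟩
        rw [map_mul, hk, hk', map_mul, zpow_add]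
        have h2 : φ p * φ a ^ k' = φ a ^ k' * φ p := ((hca p hp).zpow_left k').symm
        calc φ a ^ k * φ p * (φ a ^ k' * φ p') = φ a ^ k * (φ p * φ a ^ k') * φ p' := by group
          _ = φ a ^ k * φ a ^ k' * (φ p * φ p') := by rw [h2]; group
      | inv y _ hy =>
        obtain ⟨k, p, hp, hk⟩ := hy
        refine ⟨-k, p⁻¹, Subgroup.inv_mem _ hp, ?_⟩
        rw [map_inv, hk, map_inv, zpow_neg, mul_inv_rev]
        exact (((hca p hp).zpow_left k).inv_inv).symm
    obtain ⟨k, p, hp, hk⟩ := h1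
    obtain ⟨s, hs, hsp⟩ := ih p hp
    refine ⟨a ^ k * s, ⟨a ^ k, Subgroup.zpow_mem_zpowers a k, s, hs, rfl⟩, ?_⟩
    rw [map_mul, map_zpow, hsp, hk]

theorem qt_comm (hL : AllHopfian L) {K Λ : Type} [Group K] [Group Λ] (hK : Group.FG K)
    (π : K →* Λ) (hc : ∀ a b : Λ, a * b = b * a) : QT L π (Set.univ : Set K) := by
  classical
  obtain ⟨S, hS⟩ := (Group.fg_def.1 hK : (⊤ : Subgroup K).FG)
  refine qt_mono π (qt_of_tame π (tame_lprod hL S.toList))
    ((S ×ˢ S).image fun q => ⁅q.1, q.2⁆) ?_ _ ?_ (Set.subset_univ _)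
  · intro g hg
    obtain ⟨q, -, rfl⟩ := Finset.mem_image.1 hg
    rw [map_commutatorElement, commutatorElement_def, hc (π q.1)]
    group
  · intro H _ φ hφ g _
    refine lprod_image φ S.toList ?_ g ?_
    · intro a ha b hb
      have h1 := hφ ⁅a, b⁆ (Finset.mem_image.2 ⟨(a, b), Finset.mem_product.2
        ⟨Finset.mem_toList.1 ha, Finset.mem_toList.1 hb⟩, rfl⟩)
      rw [map_commutatorElement, commutatorElement_eq_one_iff_mul_comm] at h1
      exact h1
    · have h1 : {a : K | a ∈ S.toList} = (S : Set K) := by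
        ext a
        simp
      rw [h1, hS]
      exact Subgroup.mem_top g

private theorem conj_fin {G : Type} [Group G] (A E : Finset G) :
    (Subgroup.closure {g | ∃ a ∈ (A : Set G), ∃ e ∈ E, g = e * a * e⁻¹}).FG := by
  rw [Subgroup.fg_iff]
  refine ⟨_, rfl, ?_⟩
  have h1 : {g : G | ∃ a ∈ (A : Set G), ∃ e ∈ E, g = e * a * e⁻¹} ⊆
      (fun q : G × G => q.2 * q.1 * q.2⁻¹) '' ((A : Set G) ×ˢ (E : Set G)) := by
    rintro g ⟨a, ha, e, he, rfl⟩
    exact ⟨(a, e), ⟨ha, he⟩, rfl⟩
  exact ((A.finite_toSet.prod E.finite_toSet).image _).subset h1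

/-- Lifting the cyclic extension: `K = ⟨x⟩ P`, `P` generated by the `⟨x⟩`-conjugates of finitely
many elements over `H`. -/
theorem lift_cyc {K Λ : Type} [Group K] [Group Λ] (hK : Group.FG K) (π : K →* Λ)
    (hπ : Function.Surjective π) (H : Subgroup Λ) (x : Λ)
    (hx : ∀ g : Λ, ∃ n : ℤ, ∃ h ∈ H, g = x ^ n * h) :
    ∃ (t : K) (A : Finset K), π t = x ∧ (∀ a ∈ A, π a ∈ H) ∧
      (Subgroup.zpowers t : Set K) *
        (Subgroup.closure {g | ∃ a ∈ (A : Set K), ∃ s ∈ (Subgroup.zpowers t : Set K),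
          g = s * a * s⁻¹} : Set K) = Set.univ := by
  classical
  obtain ⟨S, hS⟩ := (Group.fg_def.1 hK : (⊤ : Subgroup K).FG)
  obtain ⟨t, ht⟩ := hπ x
  choose n h hh hn using hx
  refine ⟨t, S.image fun s => (t ^ n (π s))⁻¹ * s, ht, ?_, ?_⟩
  · intro a ha
    obtain ⟨s, -, rfl⟩ := Finset.mem_image.1 ha
    rw [map_mul, map_inv, map_zpow, ht]
    have h1 : (x ^ n (π s))⁻¹ * π s = h (π s) := by
      conv_lhs => rw [hn (π s)]
      group
      have : n (x ^ n (π s) * h (π s)) = n (π s) := by rw [← hn (π s)]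
      rw [this]
      group
    rw [h1]
    exact hh _
  · set A : Finset K := S.image fun s => (t ^ n (π s))⁻¹ * s with hA
    set P : Subgroup K := Subgroup.closure {g | ∃ a ∈ (A : Set K),
      ∃ s ∈ (Subgroup.zpowers t : Set K), g = s * a * s⁻¹} with hP
    have hAP : ∀ a ∈ A, a ∈ P := by
      intro a ha
      exact Subgroup.subset_closure ⟨a, ha, 1, Subgroup.one_mem _, by group⟩
    have hconj : ∀ k : ℤ, ∀ p ∈ P, t ^ k * p * (t ^ k)⁻¹ ∈ P := by
      intro k p hp
      induction hp using Subgroup.closure_induction with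
      | mem y hy =>
        obtain ⟨a, ha, s, hs, rfl⟩ := hy
        refine Subgroup.subset_closure ⟨a, ha, t ^ k * s,
          Subgroup.mul_mem _ (Subgroup.zpow_mem_zpowers t k) hs, by group⟩
      | one =>
        have h1 : t ^ k * 1 * (t ^ k)⁻¹ = 1 := by group
        rw [h1]
        exact P.one_mem
      | mul y z _ _ hy hz =>
        have h1 : t ^ k * (y * z) * (t ^ k)⁻¹ =
            (t ^ k * y * (t ^ k)⁻¹) * (t ^ k * z * (t ^ k)⁻¹) := by group
        rw [h1]
        exact P.mul_mem hy hz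
      | inv y _ hy =>
        have h1 : t ^ k * y⁻¹ * (t ^ k)⁻¹ = (t ^ k * y * (t ^ k)⁻¹)⁻¹ := by group
        rw [h1]
        exact P.inv_mem hy
    rw [Set.eq_univ_iff_forall]
    intro g
    have hg : g ∈ Subgroup.closure (S : Set K) := by
      rw [hS]
      exact Subgroup.mem_top g
    have hall : ∃ k : ℤ, ∃ p ∈ P, g = t ^ k * p := by
      induction hg using Subgroup.closure_induction with
      | mem y hy =>
        exact ⟨n (π y), (t ^ n (π y))⁻¹ * y,
          hAP _ (Finset.mem_image_of_mem _ (Finset.mem_coe.1 hy)), by group⟩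
      | one => exact ⟨0, 1, P.one_mem, by simp⟩
      | mul y z _ _ hy hz =>
        obtain ⟨k, p, hp, rfl⟩ := hy
        obtain ⟨l, q, hq, rfl⟩ := hz
        refine ⟨k + l, (t ^ (-l) * p * (t ^ (-l))⁻¹) * q, P.mul_mem (hconj _ _ hp) hq, ?_⟩
        rw [zpow_add, zpow_neg]
        group
      | inv y _ hy =>
        obtain ⟨k, p, hp, rfl⟩ := hy
        refine ⟨-k, t ^ k * p⁻¹ * (t ^ k)⁻¹, hconj _ _ (P.inv_mem hp), ?_⟩
        rw [zpow_neg]
        group
    obtain ⟨k, p, hp, rfl⟩ := hall
    exact ⟨t ^ k, Subgroup.zpow_mem_zpowers t k, p, hp, rfl⟩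

theorem qt_of_eas (hL : AllHopfian L) {Λ : Type} [Group Λ] (h : EAs Λ) :
    ∀ {K : Type} [Group K], Group.FG K → ∀ π : K →* Λ, Function.Surjective π →
      QT L π (Set.univ : Set K) := by
  induction h with
  | comm Λ hc =>
    intro K _ hK π _
    exact qt_comm hL hK π hc
  | cyc Λ H hH x hx hemb ih =>
    intro K _ hK π hπ
    obtain ⟨t, A, ht, hA, hu⟩ := lift_cyc hK π hπ H x hx
    rw [← hu]
    refine qt_mul π (qt_of_tame π (tame_zpowers hL t)) ?_
    refine qt_orbit π (A : Set K) (qt_of_tame π (tame_zpowers hL t)) fun E hE => ?_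
    set P : Subgroup K := Subgroup.closure {g | ∃ a ∈ (A : Set K), ∃ e ∈ E, g = e * a * e⁻¹}
      with hP
    have hPH : ∀ p ∈ P, π p ∈ H := by
      intro p hp
      have h1 : P ≤ H.comap π := by
        rw [hP, Subgroup.closure_le]
        rintro g ⟨a, ha, e, -, rfl⟩
        change π (e * a * e⁻¹) ∈ H
        rw [map_mul, map_mul, map_inv]
        exact hH.conj_mem _ (hA a (Finset.mem_coe.1 ha)) _
      exact h1 hp
    have hPf : Group.FG P := (Group.fg_iff_subgroup_fg _).2 (conj_fin A E)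
    let π₁ : P →* Λ := π.comp P.subtype
    have hR : Group.FG π₁.range :=
      haveI := hPf
      Group.fg_of_surjective π₁.rangeRestrict_surjective
    refine qt_sub π P π₁.rangeRestrict ?_ ?_
    · intro p hp
      have h1 := congrArg Subtype.val hp
      exact h1
    · refine ih _ π₁.range.subtype (Subgroup.subtype_injective _) hR ?_ hPf π₁.rangeRestrict
        π₁.rangeRestrict_surjective
      rintro ⟨_, p, rfl⟩
      exact hPH p p.2

end Pool.Agent.Helper83.JN
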